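import Pool.Agent.T2h17.TV.Core
import Pool.Agent.T2h17.HW.Fil

/-!
Transversality at points which are generic in bounded degree.
-/

set_option autoImplicit false
set_option maxHeartbeats 400000

open Matrix Filter

namespace Pool.Agent.T2h17.TV

open Pool.Agent.T2h17.HW

variable {n k : ℕ}

/-- the operators on the direct sum which preserve the filtration `F_1 ⊕ ⋯ ⊕ F_k` -/
def StbS (F : Fin k → ℤ → Submodule ℂ (Fin n → ℂ)) :
    Submodule ℂ (Matrix (Fin n × Fin k) (Fin n × Fin k) ℂ) where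
  carrier := {B | ∀ (p : ℤ) (v : Fin n × Fin k → ℂ), (∀ j, (fun i => v (i, j)) ∈ F j p) →
    ∀ j, (fun i => (v ᵥ* B) (i, j)) ∈ F j p}
  add_mem' := by
    intro B B' h h' p v hv j
    have h1 : (fun i => (v ᵥ* (B + B')) (i, j)) = (fun i => (v ᵥ* B) (i, j)) +
        fun i => (v ᵥ* B') (i, j) := by
      funext i
      rw [vecMul_add]
      rfl
    rw [h1]
    exact (F j p).add_mem (h p v hv j) (h' p v hv j)
  zero_mem' := by
    intro p v hv j
    have h1 : (fun i => (v ᵥ* (0 : Matrix (Fin n × Fin k) (Fin n × Fin k) ℂ)) (i, j)) = 0 := by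
      funext i
      rw [vecMul_zero]
      rfl
    rw [h1]
    exact (F j p).zero_mem
  smul_mem' := by
    intro c B h p v hv j
    have h1 : (fun i => (v ᵥ* (c • B)) (i, j)) = c • fun i => (v ᵥ* B) (i, j) := by
      funext i
      rw [vecMul_smul]
      rfl
    rw [h1]
    exact (F j p).smul_mem c (h p v hv j)

/-- the conclusion -/
def Trans (N : Matrix (Fin n) (Fin n) ℚ) (𝒩 : Set (Matrix (Fin n) (Fin n) ℂ))
    (lev : Fin n → ℤ) (d0 : ℕ) (C : Matrix (Fin n) (Fin n) ℂ) (h : Fin k → Matrix (Fin n) (Fin n) ℂ)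
    (l : ℂ) (t : Fin k → ℂ) : Prop :=
  ∀ Φ : Fin k → Matrix (Fin n) (Fin n) ℂ,
    (∀ j p, ∀ v ∈ Fil lev (h j * En (tc N) (-(l + t j)) * C) p,
      v ᵥ* Φ j - (p : ℂ) • v ∈ Fil lev (h j * En (tc N) (-(l + t j)) * C) (p + 1)) →
    ∀ 𝔪 : Submodule ℚ (Matrix (Fin n × Fin k) (Fin n × Fin k) ℚ),
    (∀ X ∈ 𝔪, ∀ Y ∈ 𝔪, X * Y - Y * X ∈ 𝔪) →
    blockDiagonal Φ ∈ Submodule.span ℂ (tc '' (𝔪 : Set (Matrix (Fin n × Fin k) (Fin n × Fin k) ℚ))) →
    ∀ Y : Fin k → Matrix (Fin n) (Fin n) ℂ, (∀ j, Y j ∈ Submodule.span ℂ (𝒩 ∪ {tc N})) →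
    ∃ Z ∈ Tg d0 C ⊔ Submodule.span ℂ {tc N},
      (blockDiagonal fun j => C⁻¹ * (Y j + Z) * C) ∈
        Submodule.span ℂ (tc '' (𝔪 : Set (Matrix (Fin n × Fin k) (Fin n × Fin k) ℚ))) ⊔
        StbS fun j => Fil lev (h j * En (tc N) (-(l + t j)) * C)

theorem fil_mem {lev : Fin n → ℤ} {P : Matrix (Fin n) (Fin n) ℂ} {p : ℤ} {w : Fin n → ℂ}
    (hw : ∀ i, lev i < p → w i = 0) : w ᵥ* P ∈ Fil lev P p := by
  have h1 : w ᵥ* P = ∑ i, w i • P i := by
    funext j
    rw [Finset.sum_apply]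
    rfl
  rw [h1]
  refine Submodule.sum_mem _ fun i _ => ?_
  rcases lt_or_ge (lev i) p with h | h
  · rw [hw i h, zero_smul]
    exact Submodule.zero_mem _
  · exact Submodule.smul_mem _ _ (Submodule.subset_span ⟨i, h, rfl⟩)

theorem vecMul_bd (w : Fin n × Fin k → ℂ) (P : Fin k → Matrix (Fin n) (Fin n) ℂ) (j : Fin k) :
    (fun i => (w ᵥ* blockDiagonal P) (i, j)) = (fun i => w (i, j)) ᵥ* P j := by
  funext i
  show ∑ a : Fin n × Fin k, w a * blockDiagonal P a (i, j) = ∑ a, w (a, j) * P j a i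
  rw [Fintype.sum_prod_type]
  refine Finset.sum_congr rfl fun a _ => ?_
  rw [Finset.sum_eq_single j]
  · rw [blockDiagonal_apply_eq]
  · intro b _ hb
    rw [blockDiagonal_apply_ne _ _ _ hb, mul_zero]
  · intro h
    exact absurd (Finset.mem_univ _) h

/-- matrices with an upper triangular form preserve the filtration -/
theorem up_stb {lev : Fin n → ℤ} {P : Fin k → Matrix (Fin n) (Fin n) ℂ}
    (hP : ∀ j, (P j).det ≠ 0) {A : Matrix (Fin n × Fin k) (Fin n × Fin k) ℂ}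
    (hA : Up (fun a : Fin n × Fin k => lev a.1) 0 A) :
    (blockDiagonal fun j => (P j)⁻¹) * A * blockDiagonal P ∈ StbS fun j => Fil lev (P j) := by
  intro p v hv j
  choose w hw hvw using fun j => mem_Fil (hv j)
  set w' : Fin n × Fin k → ℂ := fun a => w a.2 a.1 with hw'
  have h1 : v ᵥ* (blockDiagonal fun j => (P j)⁻¹) = w' := by
    funext ⟨i, j⟩
    have h2 := congrFun (vecMul_bd v (fun j => (P j)⁻¹) j) i
    rw [hvw j, vecMul_vecMul, Matrix.mul_nonsing_inv _ (isUnit_iff_ne_zero.2 (hP j)), vecMul_one] at h2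
    exact h2
  have h3 : v ᵥ* ((blockDiagonal fun j => (P j)⁻¹) * A * blockDiagonal P) =
      (w' ᵥ* A) ᵥ* blockDiagonal P := by
    rw [← h1, vecMul_vecMul, vecMul_vecMul, Matrix.mul_assoc]
  rw [h3, vecMul_bd]
  refine fil_mem fun i hi => ?_
  show ∑ a, w' a * A a (i, j) = 0
  refine Finset.sum_eq_zero fun a _ => ?_
  rcases lt_or_ge (lev a.1) p with h | h
  · have h4 : w' a = 0 := hw a.2 a.1 h
    rw [h4, zero_mul]
  · rw [hA a (i, j) (by
      show lev i < lev a.1 + 0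
      linarith), mul_zero]

/-- **transversality** -/
theorem trans (k : ℕ) {N : Matrix (Fin n) (Fin n) ℚ} (hN : N ^ n = 0)
    {𝒩 : Set (Matrix (Fin n) (Fin n) ℂ)} (hn : ∀ X ∈ 𝒩, X ^ n = 0)
    (hconj : ∀ X ∈ 𝒩, ∀ s, En (tc N) s * X * En (tc N) (-s) ∈ Submodule.span ℂ 𝒩)
    (lev : Fin n → ℤ) (d0 : ℕ) : ∃ d : ℕ, ∀ (C : Matrix (Fin n) (Fin n) ℂ)
      (h : Fin k → Matrix (Fin n) (Fin n) ℂ) (l : ℂ) (t : Fin k → ℂ), C.det ≠ 0 →
      (∀ j, (h j).det ≠ 0) → Gen 𝒩 d 1 h t → Trans N 𝒩 lev d0 C h l t := by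
  classical
  have hNc : tc N ^ n = 0 := by
    rw [← tc_pow, hN]
    ext i j
    simp [tc]
  have hE : ∀ s, En (tc N) s * En (tc N) (-s) = 1 := fun s =>
    Pool.Agent.Y119.HY.E_mul_neg hNc s
  have hdetE : ∀ s, (En (tc N) s).det ≠ 0 := by
    intro s h0
    have h1 := congrArg Matrix.det (hE s)
    rw [Matrix.det_mul, h0, zero_mul, Matrix.det_one] at h1
    exact zero_ne_one h1
  have hconj' : ∀ X ∈ Submodule.span ℂ 𝒩, ∀ s,
      En (tc N) s * X * En (tc N) (-s) ∈ Submodule.span ℂ 𝒩 := by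
    intro X hX s
    induction hX using Submodule.span_induction with
    | mem X h => exact hconj X h s
    | zero =>
      rw [Matrix.mul_zero, Matrix.zero_mul]
      exact Submodule.zero_mem _
    | add A B _ _ hA hB =>
      rw [Matrix.mul_add, Matrix.add_mul]
      exact Submodule.add_mem _ hA hB
    | smul c A _ hA =>
      rw [Matrix.mul_smul, Matrix.smul_mul]
      exact Submodule.smul_mem _ _ hA
  by_contra hcon
  push Not at hcon
  have h1 : ∀ d : ℕ, Nonempty (Bad2 (k := k) N 𝒩 lev d0 d) := by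
    intro d
    obtain ⟨C, h, l, t, hC, hh, hG, hnot⟩ := hcon d
    unfold Trans at hnot
    push Not at hnot
    obtain ⟨Φ, hΦ, 𝔪, hbr, hmem, Y, hY, hnot⟩ := hnot
    have hdet : ∀ j, (h j * En (tc N) (-(l + t j)) * C).det ≠ 0 := by
      intro j
      rw [Matrix.det_mul, Matrix.det_mul]
      exact mul_ne_zero (mul_ne_zero (hh j) (hdetE _)) hC
    choose Φ0 hΦ1 hΦ2 using fun j => hodge_shape (hdet j) (hΦ j)
    obtain ⟨x, hx⟩ := exists_fam 𝔪
    have hxm : ∀ a, x a ∈ 𝔪 := fun a => by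
      rw [← hx]
      exact Submodule.subset_span ⟨a, rfl⟩
    have h2 : ∀ j, ∃ (Z : Matrix (Fin n) (Fin n) ℂ) (μ : ℂ), Z ∈ Submodule.span ℂ 𝒩 ∧
        Y j = Z + μ • tc N := by
      intro j
      have h3 := hY j
      rw [Submodule.span_union, Submodule.mem_sup] at h3
      obtain ⟨Z, hZ, W, hW, h4⟩ := h3
      obtain ⟨μ, rfl⟩ := Submodule.mem_span_singleton.1 hW
      exact ⟨Z, μ, hZ, h4.symm⟩
    choose W μ hW hWY using h2
    rw [span_image 𝔪 hx] at hmem
    refine ⟨{ C := C, h := h, l := l, t := t, Φ := Φ, Φ0 := Φ0, W := W, μ := μ, x := x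
              hC := hC, hh := hh, hG := hG, hΦ := hΦ1, hsh := hΦ2
              hbr := fun a b => by
                rw [hx]
                exact hbr _ (hxm a) _ (hxm b)
              hmem := hmem, hW := hW
              hnot := fun Z hZ c V hV A hA heq => ?_ }⟩
    refine hnot (Z + c • tc N) (Submodule.add_mem_sup hZ
      (Submodule.smul_mem _ _ (Submodule.subset_span rfl))) ?_
    have h3 : (blockDiagonal fun j => C⁻¹ * (Y j + (Z + c • tc N)) * C) =
        blockDiagonal fun j => C⁻¹ * (W j + μ j • tc N + Z + c • tc N) * C := by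
      congr 1
      funext j
      rw [hWY j]
      congr 2
      abel
    rw [h3, heq]
    refine Submodule.add_mem_sup ?_ (up_stb hdet hA)
    rw [span_image 𝔪 hx]
    exact hV
  exact no_bad2 hN hn hconj' hE fun d => (h1 d).some

end Pool.Agent.T2h17.TV
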