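import Mathlib

/-!
An inequality of dimensions.
-/

set_option autoImplicit false
set_option maxHeartbeats 400000

namespace Pool.Agent.T2h17.TV

open Module

variable {V : Type} [AddCommGroup V] [Module ℂ V] [FiniteDimensional ℂ V]

/-- the codimension of `S ∩ G` in `G` is the rank of the projection -/
theorem finrank_range_mkQ (G S : Submodule ℂ V) :
    finrank ℂ (LinearMap.range (S.mkQ.comp G.subtype)) = finrank ℂ G - finrank ℂ (G ⊓ S : Submodule ℂ V) := by
  have h1 := LinearMap.finrank_range_add_finrank_ker (S.mkQ.comp G.subtype)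
  have h2 : LinearMap.ker (S.mkQ.comp G.subtype) = S.comap G.subtype := by
    rw [LinearMap.ker_comp, Submodule.ker_mkQ]
  have h3 : finrank ℂ (S.comap G.subtype) = finrank ℂ (G ⊓ S : Submodule ℂ V) := by
    have h4 : (S.comap G.subtype).map G.subtype = G ⊓ S := by
      rw [Submodule.map_comap_subtype]
    rw [← h4]
    exact (Submodule.finrank_map_subtype_eq _ _).symm
  rw [h2, h3] at h1
  omega

/-- **the total codimension** -/
theorem dim_ineq {k : ℕ} (G T : Submodule ℂ V) (S : Fin k → Submodule ℂ V)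
    (h : ∀ Y : Fin k → V, (∀ j, Y j ∈ G) → ∃ Z ∈ T, ∀ j, Y j + Z ∈ S j) :
    ∑ j, (finrank ℂ G - finrank ℂ (G ⊓ S j : Submodule ℂ V)) +
      finrank ℂ (T ⊓ ⨅ j, S j : Submodule ℂ V) ≤ finrank ℂ T := by
  classical
  set φ : ∀ j, G →ₗ[ℂ] V ⧸ S j := fun j => (S j).mkQ.comp G.subtype with hφ
  set ψ : V →ₗ[ℂ] (∀ j, V ⧸ S j) := LinearMap.pi fun j => (S j).mkQ with hψ
  have hker : LinearMap.ker ψ = ⨅ j, S j := by
    rw [hψ, LinearMap.ker_pi]
    simp only [Submodule.ker_mkQ]
  set ψ' : T →ₗ[ℂ] (∀ j, V ⧸ S j) := ψ.comp T.subtype with hψ'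
  have h1 := LinearMap.finrank_range_add_finrank_ker ψ'
  have h2 : finrank ℂ (LinearMap.ker ψ') = finrank ℂ (T ⊓ ⨅ j, S j : Submodule ℂ V) := by
    have h3 : LinearMap.ker ψ' = (⨅ j, S j).comap T.subtype := by
      rw [hψ', LinearMap.ker_comp, hker]
    have h4 : ((⨅ j, S j).comap T.subtype).map T.subtype = T ⊓ ⨅ j, S j := by
      rw [Submodule.map_comap_subtype]
    rw [h3, ← h4]
    exact (Submodule.finrank_map_subtype_eq _ _).symm
  -- the product of the images
  let incl : (∀ j, LinearMap.range (φ j)) →ₗ[ℂ] (∀ j, V ⧸ S j) :=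
    LinearMap.pi fun j => (LinearMap.range (φ j)).subtype.comp (LinearMap.proj j)
  have hincl : ∀ f, ∀ j, incl f j = (f j : V ⧸ S j) := fun f j => rfl
  have hinj : Function.Injective incl := by
    intro f f' hff
    funext j
    exact Subtype.ext (congrFun hff j)
  have hsub : LinearMap.range incl ≤ LinearMap.range ψ' := by
    rintro _ ⟨f, rfl⟩
    choose y hy using fun j => (f j).2
    obtain ⟨Z, hZ, hYZ⟩ := h (fun j => (y j : V)) fun j => (y j).2
    refine ⟨⟨-Z, T.neg_mem hZ⟩, ?_⟩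
    funext j
    rw [hincl, ← hy j]
    show (S j).mkQ (-Z) = (S j).mkQ (y j : V)
    rw [Submodule.mkQ_apply, Submodule.mkQ_apply, Submodule.Quotient.eq]
    have h3 := (S j).neg_mem (hYZ j)
    have h4 : -((y j : V) + Z) = -Z - (y j : V) := by abel
    rwa [h4] at h3
  have h3 : finrank ℂ (∀ j, LinearMap.range (φ j)) ≤ finrank ℂ (LinearMap.range ψ') := by
    rw [← LinearMap.finrank_range_of_inj hinj]
    exact Submodule.finrank_mono hsub
  rw [Module.finrank_pi_fintype] at h3
  have h4 : ∀ j, finrank ℂ (LinearMap.range (φ j)) =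
      finrank ℂ G - finrank ℂ (G ⊓ S j : Submodule ℂ V) := fun j => finrank_range_mkQ G (S j)
  simp only [h4] at h3
  rw [h2] at h1
  omega

end Pool.Agent.T2h17.TV
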