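import Pool.Agent.T2h17.TV.Trd2

/-!
The tangent spaces for the rational structures in which a nilpotent matrix and a form are rational.
-/

set_option autoImplicit false
set_option maxHeartbeats 400000

open Matrix

namespace Pool.Agent.T2h17.TV

variable {n : ℕ}

/-- rational matrices as complex matrices -/
def cc (M : Matrix (Fin n) (Fin n) ℚ) : Matrix (Fin n) (Fin n) ℂ := M.map fun x : ℚ => (x : ℂ)

/-- the infinitesimal similitudes of the form `S` which normalise `N` -/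
def Nrm (N S : Matrix (Fin n) (Fin n) ℂ) : Submodule ℂ (Matrix (Fin n) (Fin n) ℂ) where
  carrier := {Z | (∃ μ : ℂ, Z * N - N * Z = μ • N) ∧ ∃ η : ℂ, Z * S + S * Zᵀ = η • S}
  add_mem' := by
    rintro Z Z' ⟨⟨μ, h1⟩, η, h2⟩ ⟨⟨μ', h1'⟩, η', h2'⟩
    refine ⟨⟨μ + μ', ?_⟩, η + η', ?_⟩
    · rw [add_smul, ← h1, ← h1', Matrix.add_mul, Matrix.mul_add]
      abel
    · rw [add_smul, ← h2, ← h2', Matrix.add_mul, transpose_add, Matrix.mul_add]
      abel
  zero_mem' := by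
    refine ⟨⟨0, ?_⟩, 0, ?_⟩
    · rw [Matrix.zero_mul, Matrix.mul_zero, sub_zero, zero_smul]
    · rw [Matrix.zero_mul, transpose_zero, Matrix.mul_zero, add_zero, zero_smul]
  smul_mem' := by
    rintro c Z ⟨⟨μ, h1⟩, η, h2⟩
    refine ⟨⟨c * μ, ?_⟩, c * η, ?_⟩
    · rw [mul_smul, ← h1, Matrix.smul_mul, Matrix.mul_smul, smul_sub]
    · rw [mul_smul, ← h2, Matrix.smul_mul, transpose_smul, Matrix.mul_smul, smul_add]

/-- the linear forms -/
noncomputable def lf (A B : Matrix (Fin n) (Fin n) ℚ) (i j : Fin n) : MvPolynomial (Fin n × Fin n) ℚ :=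
  ∑ p, ∑ q, MvPolynomial.C (A i p * B q j) * MvPolynomial.X (p, q)

theorem lf_deg (A B : Matrix (Fin n) (Fin n) ℚ) (i j : Fin n) : (lf A B i j).totalDegree ≤ 1 := by
  unfold lf
  refine MvPolynomial.totalDegree_finsetSum_le fun p _ => ?_
  refine MvPolynomial.totalDegree_finsetSum_le fun q _ => ?_
  refine (MvPolynomial.totalDegree_mul _ _).trans ?_
  rw [MvPolynomial.totalDegree_C, zero_add]
  exact (MvPolynomial.totalDegree_X _).le

theorem lf_val (C : Matrix (Fin n) (Fin n) ℂ) (A B : Matrix (Fin n) (Fin n) ℚ) (i j : Fin n) :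
    MvPolynomial.aeval (fun a : Fin n × Fin n => C a.1 a.2) (lf A B i j) = (cc A * C * cc B) i j :=
  (Dv_lin C 0 A B i j).1

theorem lf_dv (C v : Matrix (Fin n) (Fin n) ℂ) (A B : Matrix (Fin n) (Fin n) ℚ) (i j : Fin n) :
    Dv (fun a : Fin n × Fin n => C a.1 a.2) (fun a => v a.1 a.2) (lf A B i j) =
      (cc A * v * cc B) i j := (Dv_lin C v A B i j).2

theorem Dv_sub {τ : Type} [Fintype τ] (u v : τ → ℂ) (f g : MvPolynomial τ ℚ) :
    Dv u v (f - g) = Dv u v f - Dv u v g := by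
  have h1 : f - g = f + MvPolynomial.C (-1) * g := by
    rw [map_neg, MvPolynomial.C_1]
    ring
  rw [h1, Dv_add, Dv_mul, Dv_C, mul_zero, add_zero, MvPolynomial.aeval_C]
  simp
  ring

theorem deg_sub {τ : Type} {f g : MvPolynomial τ ℚ} {d : ℕ} (hf : f.totalDegree ≤ d)
    (hg : g.totalDegree ≤ d) : (f - g).totalDegree ≤ d :=
  (MvPolynomial.totalDegree_sub f g).trans (max_le hf hg)

/-- proportional matrices -/
theorem prop_of {Y R : Matrix (Fin n) (Fin n) ℂ} (h : ∀ i j k l, Y k l * R i j = Y i j * R k l)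
    (hY : Y ≠ 0) : ∃ μ : ℂ, R = μ • Y := by
  obtain ⟨k, l, hkl⟩ : ∃ k l, Y k l ≠ 0 := by
    by_contra hcon
    push Not at hcon
    exact hY (by
      ext k l
      exact hcon k l)
  refine ⟨R k l / Y k l, ?_⟩
  ext i j
  rw [Matrix.smul_apply, smul_eq_mul, div_mul_eq_mul_div, eq_div_iff hkl]
  linear_combination h i j k l

/-- the nilpotent matrix -/
theorem Tg_nil {C : Matrix (Fin n) (Fin n) ℂ} (hC : C.det ≠ 0) {N M : Matrix (Fin n) (Fin n) ℚ} {s : ℂ}
    (hs : s ≠ 0) (hM : C * cc M = s • (cc N * C)) {Z : Matrix (Fin n) (Fin n) ℂ} (hZ : Z ∈ Tg 2 C) :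
    ∃ μ : ℂ, Z * cc N - cc N * Z = μ • cc N := by
  classical
  by_cases hN : cc N = 0
  · exact ⟨0, by rw [hN, Matrix.mul_zero, Matrix.zero_mul, sub_zero, smul_zero]⟩
  have hu : IsUnit C.det := isUnit_iff_ne_zero.2 hC
  have hone : cc (1 : Matrix (Fin n) (Fin n) ℚ) = 1 := by
    ext i j
    rw [cc, Matrix.map_apply, Matrix.one_apply, Matrix.one_apply]
    split_ifs <;> simp
  have hX : cc 1 * C * cc M = s • (cc N * C * cc 1) := by
    rw [hone, Matrix.one_mul, Matrix.mul_one, hM]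
  have h1 : ∀ i j k l, (cc N * C) k l * (s • ((Z * cc N - cc N * Z) * C)) i j =
      (cc N * C) i j * (s • ((Z * cc N - cc N * Z) * C)) k l := by
    intro i j k l
    have h2 := mem_Tg.1 hZ (lf 1 M i j * lf N 1 k l - lf 1 M k l * lf N 1 i j)
      (deg_sub ((MvPolynomial.totalDegree_mul _ _).trans (by
        have := lf_deg (1 : Matrix (Fin n) (Fin n) ℚ) M i j
        have := lf_deg N (1 : Matrix (Fin n) (Fin n) ℚ) k l
        omega)) ((MvPolynomial.totalDegree_mul _ _).trans (by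
        have := lf_deg (1 : Matrix (Fin n) (Fin n) ℚ) M k l
        have := lf_deg N (1 : Matrix (Fin n) (Fin n) ℚ) i j
        omega))) (by
        rw [map_sub, map_mul, map_mul, lf_val, lf_val, lf_val, lf_val, hX]
        simp only [Matrix.smul_apply, smul_eq_mul]
        ring)
    rw [Dv_sub, Dv_mul, Dv_mul, lf_val, lf_val, lf_val, lf_val, lf_dv, lf_dv, lf_dv, lf_dv, hX] at h2
    have h3 : cc 1 * (Z * C) * cc M = s • (Z * cc N * C) := by
      rw [hone, Matrix.one_mul, Matrix.mul_assoc, hM, Matrix.mul_smul, Matrix.mul_assoc]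
    have h4 : cc N * (Z * C) * cc 1 = cc N * Z * C := by
      rw [hone, Matrix.mul_one, Matrix.mul_assoc]
    have h5 : cc N * C * cc 1 = cc N * C := by rw [hone, Matrix.mul_one]
    rw [h3, h4, h5] at h2
    simp only [Matrix.smul_apply, smul_eq_mul, Matrix.sub_mul, Matrix.sub_apply] at h2 ⊢
    linear_combination h2
  have hNC : cc N * C ≠ 0 := by
    intro h0
    apply hN
    calc cc N = cc N * (C * C⁻¹) := by rw [Matrix.mul_nonsing_inv _ hu, Matrix.mul_one]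
      _ = 0 := by rw [← Matrix.mul_assoc, h0, Matrix.zero_mul]
  obtain ⟨μ, hμ⟩ := prop_of h1 hNC
  refine ⟨s⁻¹ * μ, ?_⟩
  have h2 : (Z * cc N - cc N * Z) * C = (s⁻¹ * μ) • (cc N * C) := by
    rw [mul_smul, ← hμ, smul_smul, inv_mul_cancel₀ hs, one_smul]
  calc Z * cc N - cc N * Z = ((Z * cc N - cc N * Z) * C) * C⁻¹ := by
        rw [Matrix.mul_assoc, Matrix.mul_nonsing_inv _ hu, Matrix.mul_one]
    _ = (s⁻¹ * μ) • cc N := by
        rw [h2, Matrix.smul_mul, Matrix.mul_assoc, Matrix.mul_nonsing_inv _ hu, Matrix.mul_one]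

/-- the quadratic forms -/
noncomputable def qf (P : Matrix (Fin n) (Fin n) ℚ) (i j : Fin n) : MvPolynomial (Fin n × Fin n) ℚ :=
  ∑ p, ∑ q, MvPolynomial.C (P p q) * (MvPolynomial.X (i, p) * MvPolynomial.X (j, q))

theorem qf_deg (P : Matrix (Fin n) (Fin n) ℚ) (i j : Fin n) : (qf P i j).totalDegree ≤ 2 := by
  unfold qf
  refine MvPolynomial.totalDegree_finsetSum_le fun p _ => ?_
  refine MvPolynomial.totalDegree_finsetSum_le fun q _ => ?_
  refine (MvPolynomial.totalDegree_mul _ _).trans ?_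
  rw [MvPolynomial.totalDegree_C, zero_add]
  refine (MvPolynomial.totalDegree_mul _ _).trans ?_
  rw [MvPolynomial.totalDegree_X, MvPolynomial.totalDegree_X]

theorem trip (A P B : Matrix (Fin n) (Fin n) ℂ) (i j : Fin n) :
    (A * P * Bᵀ) i j = ∑ p, ∑ q, P p q * (A i p * B j q) := by
  rw [Matrix.mul_apply, Finset.sum_comm]
  refine Finset.sum_congr rfl fun q _ => ?_
  rw [Matrix.mul_apply, Finset.sum_mul]
  refine Finset.sum_congr rfl fun p _ => ?_
  rw [transpose_apply]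
  ring

theorem qf_val (C : Matrix (Fin n) (Fin n) ℂ) (P : Matrix (Fin n) (Fin n) ℚ) (i j : Fin n) :
    MvPolynomial.aeval (fun a : Fin n × Fin n => C a.1 a.2) (qf P i j) = (C * cc P * Cᵀ) i j := by
  rw [trip, qf, map_sum]
  refine Finset.sum_congr rfl fun p _ => ?_
  rw [map_sum]
  refine Finset.sum_congr rfl fun q _ => ?_
  rw [map_mul, map_mul, MvPolynomial.aeval_C, MvPolynomial.aeval_X, MvPolynomial.aeval_X]
  rfl

theorem qf_dv (C v : Matrix (Fin n) (Fin n) ℂ) (P : Matrix (Fin n) (Fin n) ℚ) (i j : Fin n) :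
    Dv (fun a : Fin n × Fin n => C a.1 a.2) (fun a => v a.1 a.2) (qf P i j) =
      (v * cc P * Cᵀ + C * cc P * vᵀ) i j := by
  classical
  rw [Matrix.add_apply, trip, trip, qf, Dv_sum, ← Finset.sum_add_distrib]
  refine Finset.sum_congr rfl fun p _ => ?_
  rw [Dv_sum, ← Finset.sum_add_distrib]
  refine Finset.sum_congr rfl fun q _ => ?_
  rw [Dv_mul, Dv_C, mul_zero, add_zero, Dv_mul, Dv_X, Dv_X, MvPolynomial.aeval_C,
    MvPolynomial.aeval_X, MvPolynomial.aeval_X]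
  show ((P p q : ℚ) : ℂ) * _ = ((P p q : ℚ) : ℂ) * _ + ((P p q : ℚ) : ℂ) * _
  ring

/-- the form -/
theorem Tg_form {C : Matrix (Fin n) (Fin n) ℂ} {S P : Matrix (Fin n) (Fin n) ℚ}
    {κ : ℂ} (hκ : κ ≠ 0) (hP : C * cc P * Cᵀ = κ • cc S) {Z : Matrix (Fin n) (Fin n) ℂ}
    (hZ : Z ∈ Tg 2 C) : ∃ η : ℂ, Z * cc S + cc S * Zᵀ = η • cc S := by
  classical
  by_cases hS0 : cc S = 0
  · exact ⟨0, by rw [hS0, Matrix.mul_zero, Matrix.zero_mul, add_zero, smul_zero]⟩
  have h1 : ∀ i j k l, (cc S) k l * (κ • (Z * cc S + cc S * Zᵀ)) i j =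
      (cc S) i j * (κ • (Z * cc S + cc S * Zᵀ)) k l := by
    intro i j k l
    have h2 := mem_Tg.1 hZ (qf P i j * MvPolynomial.C (S k l) - qf P k l * MvPolynomial.C (S i j))
      (deg_sub ((MvPolynomial.totalDegree_mul _ _).trans (by
        rw [MvPolynomial.totalDegree_C, add_zero]
        exact qf_deg _ _ _)) ((MvPolynomial.totalDegree_mul _ _).trans (by
        rw [MvPolynomial.totalDegree_C, add_zero]
        exact qf_deg _ _ _))) (by
        rw [map_sub, map_mul, map_mul, qf_val, qf_val, hP, MvPolynomial.aeval_C,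
          MvPolynomial.aeval_C]
        simp only [Matrix.smul_apply, smul_eq_mul]
        show κ * ((S i j : ℚ) : ℂ) * ((S k l : ℚ) : ℂ) - κ * ((S k l : ℚ) : ℂ) * ((S i j : ℚ) : ℂ) = 0
        ring)
    rw [Dv_sub, Dv_mul, Dv_mul, Dv_C, Dv_C, mul_zero, mul_zero, zero_add, zero_add, qf_dv, qf_dv,
      MvPolynomial.aeval_C, MvPolynomial.aeval_C] at h2
    have h3 : Z * C * cc P * Cᵀ + C * cc P * (Z * C)ᵀ = κ • (Z * cc S + cc S * Zᵀ) := by
      rw [transpose_mul, smul_add, ← Matrix.mul_smul, ← Matrix.smul_mul, ← hP]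
      simp only [Matrix.mul_assoc]
    rw [h3] at h2
    have h4 : (algebraMap ℚ ℂ) (S k l) = (cc S) k l := rfl
    have h5 : (algebraMap ℚ ℂ) (S i j) = (cc S) i j := rfl
    rw [h4, h5] at h2
    linear_combination h2
  obtain ⟨μ, hμ⟩ := prop_of h1 hS0
  refine ⟨κ⁻¹ * μ, ?_⟩
  rw [mul_smul, ← hμ, smul_smul, inv_mul_cancel₀ hκ, one_smul]

/-- **the tangent space is in the normaliser** -/
theorem Tg_le_Nrm {C : Matrix (Fin n) (Fin n) ℂ} (hC : C.det ≠ 0) {N M S P : Matrix (Fin n) (Fin n) ℚ}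
    {s κ : ℂ} (hs : s ≠ 0) (hM : C * cc M = s • (cc N * C)) (hκ : κ ≠ 0)
    (hP : C * cc P * Cᵀ = κ • cc S) : Tg 2 C ≤ Nrm (cc N) (cc S) :=
  fun _ hZ => ⟨Tg_nil hC hs hM hZ, Tg_form hκ hP hZ⟩

end Pool.Agent.T2h17.TV
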