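import Pool.Agent.T2h17.TV.Tr
import Pool.Agent.T2h17.TV.Dim
import Pool.Agent.T2h17.TV.Nrm
import Pool.Agent.T2h17.HW.Mon

/-!
The total codimension of the special points.
-/

set_option autoImplicit false
set_option maxHeartbeats 400000

open Matrix Module

namespace Pool.Agent.T2h17.TV

open Pool.Agent.T2h17.HW

variable {n k : ℕ}

/-- the operators which preserve the filtration -/
def Stb (F : ℤ → Submodule ℂ (Fin n → ℂ)) : Submodule ℂ (Matrix (Fin n) (Fin n) ℂ) where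
  carrier := {B | ∀ p, ∀ v ∈ F p, v ᵥ* B ∈ F p}
  add_mem' := by
    intro B B' h h' p v hv
    rw [vecMul_add]
    exact (F p).add_mem (h p v hv) (h' p v hv)
  zero_mem' := by
    intro p v _
    rw [vecMul_zero]
    exact (F p).zero_mem
  smul_mem' := by
    intro c B h p v hv
    rw [vecMul_smul]
    exact (F p).smul_mem c (h p v hv)

/-- the conjugation `Y ↦ C⁻¹ Y C` -/
noncomputable def cj (C : Matrix (Fin n) (Fin n) ℂ) :
    Matrix (Fin n) (Fin n) ℂ →ₗ[ℂ] Matrix (Fin n) (Fin n) ℂ where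
  toFun := fun Y => C⁻¹ * Y * C
  map_add' := fun Y Y' => by rw [Matrix.mul_add, Matrix.add_mul]
  map_smul' := fun c Y => by
    rw [Matrix.mul_smul, Matrix.smul_mul]
    rfl

/-- the direct sum of rational Lie algebras -/
def dsum (𝔪 : Fin k → Submodule ℚ (Matrix (Fin n) (Fin n) ℚ)) :
    Submodule ℚ (Matrix (Fin n × Fin k) (Fin n × Fin k) ℚ) where
  carrier := {X | ∃ M : Fin k → Matrix (Fin n) (Fin n) ℚ, (∀ j, M j ∈ 𝔪 j) ∧ X = blockDiagonal M}
  add_mem' := by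
    rintro _ _ ⟨M, hM, rfl⟩ ⟨M', hM', rfl⟩
    exact ⟨M + M', fun j => (𝔪 j).add_mem (hM j) (hM' j), (blockDiagonal_add M M').symm⟩
  zero_mem' := ⟨0, fun j => (𝔪 j).zero_mem, blockDiagonal_zero.symm⟩
  smul_mem' := by
    rintro c _ ⟨M, hM, rfl⟩
    exact ⟨c • M, fun j => (𝔪 j).smul_mem c (hM j), (blockDiagonal_smul c M).symm⟩

theorem tc_bd (M : Fin k → Matrix (Fin n) (Fin n) ℚ) :
    tc (blockDiagonal M) = blockDiagonal fun j => tc (M j) := by
  ext ⟨a, j⟩ ⟨b, j'⟩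
  rw [tc, Matrix.map_apply, blockDiagonal_apply, blockDiagonal_apply]
  split_ifs
  · rfl
  · simp

/-- elements of the complexification of the direct sum -/
theorem dsum_cplx {𝔪 : Fin k → Submodule ℚ (Matrix (Fin n) (Fin n) ℚ)}
    {V : Matrix (Fin n × Fin k) (Fin n × Fin k) ℂ}
    (hV : V ∈ Submodule.span ℂ (tc '' (dsum 𝔪 : Set (Matrix (Fin n × Fin k) (Fin n × Fin k) ℚ)))) :
    ∃ X : Fin k → Matrix (Fin n) (Fin n) ℂ,
      (∀ j, X j ∈ Submodule.span ℂ (tc '' (𝔪 j : Set (Matrix (Fin n) (Fin n) ℚ)))) ∧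
      V = blockDiagonal X := by
  induction hV using Submodule.span_induction with
  | mem V h =>
    obtain ⟨_, ⟨M, hM, rfl⟩, rfl⟩ := h
    exact ⟨fun j => tc (M j), fun j => Submodule.subset_span ⟨M j, hM j, rfl⟩, tc_bd M⟩
  | zero => exact ⟨0, fun j => Submodule.zero_mem _, blockDiagonal_zero.symm⟩
  | add V V' _ _ h h' =>
    obtain ⟨X, hX, rfl⟩ := h
    obtain ⟨X', hX', rfl⟩ := h'
    exact ⟨X + X', fun j => Submodule.add_mem _ (hX j) (hX' j), (blockDiagonal_add X X').symm⟩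
  | smul c V _ h =>
    obtain ⟨X, hX, rfl⟩ := h
    exact ⟨c • X, fun j => Submodule.smul_mem _ _ (hX j), (blockDiagonal_smul c X).symm⟩

theorem cplx_dsum {𝔪 : Fin k → Submodule ℚ (Matrix (Fin n) (Fin n) ℚ)}
    {Φ : Fin k → Matrix (Fin n) (Fin n) ℂ}
    (hΦ : ∀ j, Φ j ∈ Submodule.span ℂ (tc '' (𝔪 j : Set (Matrix (Fin n) (Fin n) ℚ)))) :
    blockDiagonal Φ ∈
      Submodule.span ℂ (tc '' (dsum 𝔪 : Set (Matrix (Fin n × Fin k) (Fin n × Fin k) ℚ))) := by
  classical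
  have h1 : ∀ (j : Fin k) (X : Matrix (Fin n) (Fin n) ℂ),
      X ∈ Submodule.span ℂ (tc '' (𝔪 j : Set (Matrix (Fin n) (Fin n) ℚ))) →
      blockDiagonal (Pi.single j X) ∈
        Submodule.span ℂ (tc '' (dsum 𝔪 : Set (Matrix (Fin n × Fin k) (Fin n × Fin k) ℚ))) := by
    intro j X hX
    induction hX using Submodule.span_induction with
    | mem X h =>
      obtain ⟨M, hM, rfl⟩ := h
      refine Submodule.subset_span ⟨blockDiagonal (Pi.single j M), ⟨Pi.single j M, fun i => ?_, rfl⟩, ?_⟩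
      · by_cases h : i = j
        · subst h
          rw [Pi.single_eq_same]
          exact hM
        · rw [Pi.single_eq_of_ne h]
          exact (𝔪 i).zero_mem
      · rw [tc_bd]
        congr 1
        funext i
        by_cases h : i = j
        · subst h
          rw [Pi.single_eq_same, Pi.single_eq_same]
        · rw [Pi.single_eq_of_ne h, Pi.single_eq_of_ne h]
          ext a b
          simp [tc]
    | zero =>
      rw [Pi.single_zero, blockDiagonal_zero]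
      exact Submodule.zero_mem _
    | add X X' _ _ h h' =>
      rw [Pi.single_add, blockDiagonal_add]
      exact Submodule.add_mem _ h h'
    | smul c X _ h =>
      rw [Pi.single_smul, blockDiagonal_smul]
      exact Submodule.smul_mem _ _ h
  have h2 : Φ = ∑ j, Pi.single j (Φ j) := (Finset.univ_sum_single Φ).symm
  have h3 : ∀ (s : Finset (Fin k)), blockDiagonal (∑ j ∈ s, (Pi.single j (Φ j) : Fin k → _)) =
      ∑ j ∈ s, blockDiagonal (Pi.single j (Φ j)) := by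
    intro s
    induction s using Finset.induction_on with
    | empty => rw [Finset.sum_empty, Finset.sum_empty, blockDiagonal_zero]
    | insert a s ha ih => rw [Finset.sum_insert ha, Finset.sum_insert ha, blockDiagonal_add, ih]
  rw [h2, h3]
  exact Submodule.sum_mem _ fun j _ => h1 j _ (hΦ j)

/-- the total codimension -/
theorem total {N : Matrix (Fin n) (Fin n) ℚ} {𝒩 : Set (Matrix (Fin n) (Fin n) ℂ)}
    {lev : Fin n → ℤ} {d0 : ℕ} {C : Matrix (Fin n) (Fin n) ℂ} {h : Fin k → Matrix (Fin n) (Fin n) ℂ}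
    {l : ℂ} {t : Fin k → ℂ} (hT : Trans N 𝒩 lev d0 C h l t)
    {T : Submodule ℂ (Matrix (Fin n) (Fin n) ℂ)} (hTT : Tg d0 C ⊔ Submodule.span ℂ {tc N} ≤ T)
    {Φ : Fin k → Matrix (Fin n) (Fin n) ℂ}
    (hΦ : ∀ j p, ∀ v ∈ Fil lev (h j * En (tc N) (-(l + t j)) * C) p,
      v ᵥ* Φ j - (p : ℂ) • v ∈ Fil lev (h j * En (tc N) (-(l + t j)) * C) (p + 1))
    {𝔪 : Fin k → Submodule ℚ (Matrix (Fin n) (Fin n) ℚ)}
    (hbr : ∀ j, ∀ X ∈ 𝔪 j, ∀ Y ∈ 𝔪 j, X * Y - Y * X ∈ 𝔪 j)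
    (hmem : ∀ j, Φ j ∈ Submodule.span ℂ (tc '' (𝔪 j : Set (Matrix (Fin n) (Fin n) ℚ)))) :
    ∑ j, (finrank ℂ ((Submodule.span ℂ (𝒩 ∪ {tc N})).map (cj C)) -
        finrank ℂ ((Submodule.span ℂ (𝒩 ∪ {tc N})).map (cj C) ⊓
          (Submodule.span ℂ (tc '' (𝔪 j : Set (Matrix (Fin n) (Fin n) ℚ))) ⊔
            Stb (Fil lev (h j * En (tc N) (-(l + t j)) * C))) : Submodule ℂ _)) +
      finrank ℂ (T.map (cj C) ⊓
        ⨅ j, (Submodule.span ℂ (tc '' (𝔪 j : Set (Matrix (Fin n) (Fin n) ℚ))) ⊔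
            Stb (Fil lev (h j * En (tc N) (-(l + t j)) * C))) : Submodule ℂ _) ≤
    finrank ℂ (T.map (cj C)) := by
  classical
  refine dim_ineq _ _ _ fun Y hY => ?_
  choose Y' hY' hYY using hY
  obtain ⟨Z, hZ, hmemZ⟩ := hT Φ hΦ (dsum 𝔪) (by
    rintro _ ⟨M, hM, rfl⟩ _ ⟨M', hM', rfl⟩
    refine ⟨fun j => M j * M' j - M' j * M j, fun j => hbr j _ (hM j) _ (hM' j), ?_⟩
    rw [← blockDiagonal_mul, ← blockDiagonal_mul, ← blockDiagonal_sub]
    rfl) (cplx_dsum hmem) Y' hY'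
  refine ⟨cj C Z, Submodule.mem_map_of_mem (hTT hZ), fun j => ?_⟩
  obtain ⟨V, hV, B, hB, hVB⟩ := Submodule.mem_sup.1 hmemZ
  obtain ⟨X, hX, rfl⟩ := dsum_cplx hV
  have hBb : B = blockDiagonal fun j => C⁻¹ * (Y' j + Z) * C - X j := by
    have h1 : B = (blockDiagonal fun j => C⁻¹ * (Y' j + Z) * C) - blockDiagonal X := by
      rw [← hVB]
      abel
    rw [h1, ← blockDiagonal_sub]
    rfl
  have h2 : C⁻¹ * (Y' j + Z) * C - X j ∈ Stb (Fil lev (h j * En (tc N) (-(l + t j)) * C)) := by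
    intro p v hv
    have h3 := hB p (fun a => if a.2 = j then v a.1 else 0) (by
      intro j'
      by_cases hj : j' = j
      · subst hj
        simp only [if_true]
        exact hv
      · simp only [if_neg hj]
        exact Submodule.zero_mem _) j
    rw [hBb, vecMul_bd] at h3
    simpa using h3
  have h4 : Y j + cj C Z = X j + (C⁻¹ * (Y' j + Z) * C - X j) := by
    rw [← hYY j]
    show C⁻¹ * Y' j * C + C⁻¹ * Z * C = _
    rw [Matrix.mul_add, Matrix.add_mul]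
    abel
  rw [h4]
  exact Submodule.add_mem_sup (hX j) h2

theorem finrank_cj (C : Matrix (Fin n) (Fin n) ℂ) (T : Submodule ℂ (Matrix (Fin n) (Fin n) ℂ)) :
    finrank ℂ (T.map (cj C)) ≤ finrank ℂ T := Submodule.finrank_map_le _ _

/-- scalars are in the intersection -/
theorem one_mem_inf [NeZero n] {C : Matrix (Fin n) (Fin n) ℂ} (hC : C.det ≠ 0)
    {T : Submodule ℂ (Matrix (Fin n) (Fin n) ℂ)} (hT : (1 : Matrix (Fin n) (Fin n) ℂ) ∈ T)
    (M : Fin k → Submodule ℂ (Matrix (Fin n) (Fin n) ℂ)) (F : Fin k → ℤ → Submodule ℂ (Fin n → ℂ)) :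
    1 ≤ finrank ℂ (T.map (cj C) ⊓ ⨅ j, (M j ⊔ Stb (F j)) : Submodule ℂ _) := by
  have hu : IsUnit C.det := isUnit_iff_ne_zero.2 hC
  have h1 : (1 : Matrix (Fin n) (Fin n) ℂ) ∈ (T.map (cj C) ⊓ ⨅ j, (M j ⊔ Stb (F j)) : Submodule ℂ _) := by
    refine ⟨⟨1, hT, ?_⟩, ?_⟩
    · show C⁻¹ * 1 * C = 1
      rw [Matrix.mul_one, Matrix.nonsing_inv_mul _ hu]
    · rw [SetLike.mem_coe, Submodule.mem_iInf]
      intro j
      refine Submodule.mem_sup_right fun p v hv => ?_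
      rw [vecMul_one]
      exact hv
  have h2 : (1 : Matrix (Fin n) (Fin n) ℂ) ≠ 0 := one_ne_zero
  have h3 : Nontrivial (T.map (cj C) ⊓ ⨅ j, (M j ⊔ Stb (F j)) : Submodule ℂ _) :=
    ⟨⟨⟨1, h1⟩, 0, fun h => h2 (congrArg Subtype.val h)⟩⟩
  exact Module.finrank_pos

end Pool.Agent.T2h17.TV
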