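import Pool.Agent.T2h17.TV.Trd

/-!
The dimension of the tangent space of all rational relations of a matrix.
-/

set_option autoImplicit false
set_option maxHeartbeats 400000

open Matrix

namespace Pool.Agent.T2h17.TV

variable {n : ℕ}

theorem mem_Tg {d0 : ℕ} {C Z : Matrix (Fin n) (Fin n) ℂ} : Z ∈ Tg d0 C ↔
    ∀ f : MvPolynomial (Fin n × Fin n) ℚ, f.totalDegree ≤ d0 →
    MvPolynomial.aeval (fun a => C a.1 a.2) f = 0 →
    Dv (fun a : Fin n × Fin n => C a.1 a.2) (fun a => (Z * C) a.1 a.2) f = 0 := Iff.rfl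

theorem Tg_mono {d d' : ℕ} (h : d ≤ d') (C : Matrix (Fin n) (Fin n) ℂ) : Tg d' C ≤ Tg d C := by
  intro Z hZ
  rw [mem_Tg] at hZ ⊢
  exact fun f hf h0 => hZ f (hf.trans h) h0

theorem Tg_stab (C : Matrix (Fin n) (Fin n) ℂ) : ∃ d0, ∀ d, d0 ≤ d → Tg d C = Tg d0 C := by
  let f : ℕ →o (Submodule ℂ (Matrix (Fin n) (Fin n) ℂ))ᵒᵈ :=
    ⟨fun d => OrderDual.toDual (Tg d C), fun d d' h => Tg_mono h C⟩
  obtain ⟨d0, h0⟩ := IsArtinian.monotone_stabilizes f
  exact ⟨d0, fun d hd => (OrderDual.toDual.injective (h0 d hd)).symm⟩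

/-- **the dimension is at most the transcendence degree** -/
theorem finrank_Tg {C : Matrix (Fin n) (Fin n) ℂ} (hC : C.det ≠ 0) : ∃ d0 : ℕ,
    (Module.finrank ℂ (Tg d0 C) : Cardinal) ≤
      Algebra.trdeg ℚ (IntermediateField.adjoin ℚ (Set.range fun a : Fin n × Fin n => C a.1 a.2)) := by
  classical
  obtain ⟨T, hT1, hT2⟩ := Pool.Agent.Y916.Om.exists_base fun a : Fin n × Fin n => C a.1 a.2
  obtain ⟨d0, h0⟩ := Tg_stab C
  refine ⟨d0, le_trans ?_ hT1⟩
  let L : Tg d0 C →ₗ[ℂ] (T → ℂ) :=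
    { toFun := fun Z t => ((Z : Matrix (Fin n) (Fin n) ℂ) * C) t.1.1 t.1.2
      map_add' := fun Z Z' => by
        funext t
        show (((Z + Z' : Tg d0 C) : Matrix (Fin n) (Fin n) ℂ) * C) t.1.1 t.1.2 = _
        rw [Submodule.coe_add, Matrix.add_mul]
        rfl
      map_smul' := fun c Z => by
        funext t
        show (((c • Z : Tg d0 C) : Matrix (Fin n) (Fin n) ℂ) * C) t.1.1 t.1.2 = _
        rw [Submodule.coe_smul, Matrix.smul_mul]
        rfl }
  have hL : Function.Injective L := by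
    rw [injective_iff_map_eq_zero]
    intro Z hZ
    have h1 := tan_zero (fun a : Fin n × Fin n => C a.1 a.2)
      (fun a => ((Z : Matrix (Fin n) (Fin n) ℂ) * C) a.1 a.2) hT2 (by
        intro f hf
        have h2 : (Z : Matrix (Fin n) (Fin n) ℂ) ∈ Tg (max d0 f.totalDegree) C := by
          rw [h0 _ (le_max_left _ _)]
          exact Z.2
        exact mem_Tg.1 h2 f (le_max_right _ _) hf) (by
        intro t ht
        exact congrFun hZ ⟨t, ht⟩)
    have h2 : (Z : Matrix (Fin n) (Fin n) ℂ) * C = 0 := by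
      ext i j
      exact congrFun h1 (i, j)
    have h3 : (Z : Matrix (Fin n) (Fin n) ℂ) = 0 := by
      have hu : IsUnit C.det := isUnit_iff_ne_zero.2 hC
      calc (Z : Matrix (Fin n) (Fin n) ℂ) = (Z : Matrix (Fin n) (Fin n) ℂ) * (C * C⁻¹) := by
            rw [Matrix.mul_nonsing_inv _ hu, Matrix.mul_one]
        _ = 0 := by rw [← Matrix.mul_assoc, h2, Matrix.zero_mul]
    exact Subtype.ext h3
  have h1 := LinearMap.finrank_le_finrank_of_injective hL
  rw [Module.finrank_pi, Fintype.card_coe] at h1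
  exact_mod_cast h1

/-! ### rational structures with a rational nilpotent and a rational form -/

theorem Dv_lin (C v : Matrix (Fin n) (Fin n) ℂ) (A B : Matrix (Fin n) (Fin n) ℚ) (i j : Fin n) :
    MvPolynomial.aeval (fun a : Fin n × Fin n => C a.1 a.2)
      (∑ p, ∑ q, MvPolynomial.C (A i p * B q j) * MvPolynomial.X (p, q)) =
      ((A.map fun x : ℚ => (x : ℂ)) * C * (B.map fun x : ℚ => (x : ℂ))) i j ∧
    Dv (fun a : Fin n × Fin n => C a.1 a.2) (fun a => v a.1 a.2)
      (∑ p, ∑ q, MvPolynomial.C (A i p * B q j) * MvPolynomial.X (p, q)) =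
      ((A.map fun x : ℚ => (x : ℂ)) * v * (B.map fun x : ℚ => (x : ℂ))) i j := by
  classical
  have h1 : ∀ M : Matrix (Fin n) (Fin n) ℂ,
      ((A.map fun x : ℚ => (x : ℂ)) * M * (B.map fun x : ℚ => (x : ℂ))) i j =
      ∑ p, ∑ q, ((A i p * B q j : ℚ) : ℂ) * M p q := by
    intro M
    rw [Matrix.mul_apply, Finset.sum_comm]
    refine Finset.sum_congr rfl fun q _ => ?_
    rw [Matrix.mul_apply, Finset.sum_mul]
    refine Finset.sum_congr rfl fun p _ => ?_
    rw [Matrix.map_apply, Matrix.map_apply]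
    push_cast
    ring
  constructor
  · rw [h1, map_sum]
    refine Finset.sum_congr rfl fun p _ => ?_
    rw [map_sum]
    refine Finset.sum_congr rfl fun q _ => ?_
    rw [map_mul, MvPolynomial.aeval_C, MvPolynomial.aeval_X]
    rfl
  · rw [h1, Dv_sum]
    refine Finset.sum_congr rfl fun p _ => ?_
    rw [Dv_sum]
    refine Finset.sum_congr rfl fun q _ => ?_
    rw [Dv_mul, Dv_C, mul_zero, add_zero, Dv_X, MvPolynomial.aeval_C]
    rfl

end Pool.Agent.T2h17.TV
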