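import Pool.Agent.T2h17.TV.Win
import Pool.Agent.T2h17.HW.Eng

/-!
The period matrices and the relative logarithms at the points of a window are generic in bounded degree.
-/

set_option autoImplicit false
set_option maxHeartbeats 800000

open Matrix PowerSeries

namespace Pool.Agent.T2h17.TV

open Pool.Agent.Y916.Al (Ht evc)
open Pool.Agent.Y916.Af (NRh SZ Vc ptc IrrD ExcD)
open Pool.Agent.T2h17.CM (hh Hz)
open Pool.Agent.T2h17.HW (Gen Grp Ix pt InvR YY yp yp_mem yp_ptc yp_ptc_mem yy_irr yy_vc)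

variable {n k : ℕ}

theorem deg_aeval {σ τ : Type} (f : σ → MvPolynomial τ ℚ) (hf : ∀ i, (f i).totalDegree ≤ 1)
    (P : MvPolynomial σ ℚ) : (MvPolynomial.aeval f P).totalDegree ≤ P.totalDegree := by
  classical
  conv_lhs => rw [P.as_sum, map_sum]
  refine MvPolynomial.totalDegree_finsetSum_le fun m hm => ?_
  rw [MvPolynomial.aeval_monomial]
  refine (MvPolynomial.totalDegree_mul _ _).trans ?_
  have h2 : (algebraMap ℚ (MvPolynomial τ ℚ)) (P.coeff m) = MvPolynomial.C (P.coeff m) := rfl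
  rw [h2, MvPolynomial.totalDegree_C, zero_add]
  refine le_trans ?_ (MvPolynomial.le_totalDegree hm)
  rw [Finsupp.prod, Finsupp.sum]
  refine (MvPolynomial.totalDegree_finset_prod _ _).trans (Finset.sum_le_sum fun i _ => ?_)
  refine (MvPolynomial.totalDegree_pow _ _).trans ?_
  calc m i * (f i).totalDegree ≤ m i * 1 := Nat.mul_le_mul_left _ (hf i)
    _ = m i := Nat.mul_one _

/-- the substitution of the identity for the rational structure -/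
noncomputable def sb : Ix n k → MvPolynomial (Fin k × Option (Fin (n * n))) ℚ :=
  Sum.elim (fun a => MvPolynomial.C ((1 : Matrix (Fin n) (Fin n) ℚ) a.1 a.2))
    (fun b => MvPolynomial.X (b.1, b.2.map finProdFinEquiv))

theorem sb_deg (i : Ix n k) : (sb i).totalDegree ≤ 1 := by
  rcases i with a | b
  · show (MvPolynomial.C ((1 : Matrix (Fin n) (Fin n) ℚ) a.1 a.2) :
      MvPolynomial (Fin k × Option (Fin (n * n))) ℚ).totalDegree ≤ 1
    rw [MvPolynomial.totalDegree_C]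
    omega
  · exact (MvPolynomial.totalDegree_X _).le

theorem sb_eval (P : MvPolynomial (Ix n k) ℚ) (h : Fin k → Matrix (Fin n) (Fin n) ℂ)
    (t : Fin k → ℂ) : MvPolynomial.aeval (yp h t) (MvPolynomial.aeval sb P) =
      MvPolynomial.aeval (pt 1 h t) P := by
  have h1 : (MvPolynomial.aeval (yp h t) : MvPolynomial (Fin k × Option (Fin (n * n))) ℚ →ₐ[ℚ]
      ℂ).comp (MvPolynomial.aeval sb) = MvPolynomial.aeval (pt 1 h t) := by
    refine MvPolynomial.algHom_ext fun i => ?_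
    rw [AlgHom.comp_apply, MvPolynomial.aeval_X, MvPolynomial.aeval_X]
    rcases i with a | ⟨j, _ | a⟩
    · show MvPolynomial.aeval (yp h t) (MvPolynomial.C ((1 : Matrix (Fin n) (Fin n) ℚ) a.1 a.2)) =
        (1 : Matrix (Fin n) (Fin n) ℂ) a.1 a.2
      rw [MvPolynomial.aeval_C, Matrix.one_apply, Matrix.one_apply]
      split_ifs <;> simp
    · show MvPolynomial.aeval (yp h t) (MvPolynomial.X (j, none)) = _
      rw [MvPolynomial.aeval_X]
      rfl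
    · show MvPolynomial.aeval (yp h t) (MvPolynomial.X (j, some (finProdFinEquiv a))) = _
      rw [MvPolynomial.aeval_X]
      show h j (finProdFinEquiv.symm (finProdFinEquiv a)).1 (finProdFinEquiv.symm (finProdFinEquiv a)).2 = _
      rw [Equiv.symm_apply_apply]
      rfl
  exact DFunLike.congr_fun h1 P

/-- **relations at the points of a window** -/
theorem win_rel {H : Matrix (Fin n) (Fin n) ℚ⟦X⟧} (hnr : NRh (hh H))
    {𝒩 : Set (Matrix (Fin n) (Fin n) ℂ)} {ρ : ℝ} (hρ : 0 < ρ) (hinv : InvR H 𝒩 ρ) :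
    ∃ G0 : ℕ, 1 ≤ G0 ∧ ∀ G : ℕ, G0 ≤ G → ∀ k m A d : ℕ, ∃ E : ℕ, ∀ (W : ℕ) (ξ : ℂ),
      ((W : ℝ) + 2) ^ E ≤ ‖ξ‖ →
      (∀ u ≤ W, ‖1 / (ξ - ((G * u : ℕ) : ℂ))‖ < ρ ∧ ξ - ((G * u : ℕ) : ℂ) ≠ 0) ∧ (Ht m A ξ →
      ∀ u : Fin k → ℕ, Function.Injective u → (∀ j, 1 ≤ u j ∧ u j ≤ W) →
      Gen 𝒩 d 1 (fun j => Hz H (1 / (ξ - ((G * u j : ℕ) : ℂ)))) (lw G ξ u)) := by
  classical
  obtain ⟨G0, hG0, hwin⟩ := winL hnr
  refine ⟨G0, hG0, fun G hG k m A d => ?_⟩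
  obtain ⟨δ₁, Ex, hE⟩ := hwin G hG k m d A
  obtain ⟨B, hB⟩ := exists_nat_gt (1 / ρ)
  refine ⟨Ex + G + 1 + B + 1, fun W ξ hξ => ?_⟩
  have hW0 : (0 : ℝ) ≤ W := Nat.cast_nonneg W
  have hW2 : (2 : ℝ) ≤ (W : ℝ) + 2 := by linarith
  have hW1 : (1 : ℝ) ≤ (W : ℝ) + 2 := by linarith
  have h2n : ∀ a : ℕ, (a : ℝ) + 1 ≤ ((W : ℝ) + 2) ^ a := fun a => by
    refine le_trans ?_ (pow_le_pow_left₀ (by norm_num) hW2 a)
    exact_mod_cast Nat.lt_two_pow_self (n := a)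
  have hbig : ((W : ℝ) + 2) ^ Ex ≤ ‖ξ‖ := (pow_le_pow_right₀ hW1 (by omega)).trans hξ
  have hsep : (G : ℝ) * W + (B + 1) ≤ ‖ξ‖ := by
    refine le_trans ?_ ((pow_le_pow_right₀ hW1 (show G + 1 + B + 1 ≤ Ex + G + 1 + B + 1 by omega)).trans hξ)
    have h1 := h2n G
    have h2 := h2n B
    have h3 : (G : ℝ) * W + 1 ≤ ((W : ℝ) + 2) ^ (G + 1) := by
      rw [pow_succ]
      have hG' : (0 : ℝ) ≤ G := Nat.cast_nonneg G
      nlinarith
    have h4 : (1 : ℝ) ≤ ((W : ℝ) + 2) ^ (G + 1) := one_le_pow₀ hW1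
    have h5 : (1 : ℝ) ≤ ((W : ℝ) + 2) ^ B := one_le_pow₀ hW1
    have h6 : ((W : ℝ) + 2) ^ (G + 1 + B + 1) = ((W : ℝ) + 2) ^ (G + 1) * ((W : ℝ) + 2) ^ B * ((W : ℝ) + 2) := by
      rw [pow_succ, pow_add]
    rw [h6]
    have h7 : (G : ℝ) * W + 1 + (B + 1) ≤ 2 * (((W : ℝ) + 2) ^ (G + 1) * ((W : ℝ) + 2) ^ B) := by
      nlinarith [mul_nonneg (sub_nonneg.2 h4) (sub_nonneg.2 h5)]
    have h8 : 0 ≤ ((W : ℝ) + 2) ^ (G + 1) * ((W : ℝ) + 2) ^ B := by positivity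
    nlinarith
  have hlow : ∀ u ≤ W, (B : ℝ) + 1 ≤ ‖ξ - ((G * u : ℕ) : ℂ)‖ := by
    intro u hu
    have h1 := norm_sub_norm_le ξ ((G * u : ℕ) : ℂ)
    rw [Complex.norm_natCast] at h1
    have h2 : ((G * u : ℕ) : ℝ) ≤ G * W := by
      push_cast
      exact mul_le_mul_of_nonneg_left (by exact_mod_cast hu) (Nat.cast_nonneg G)
    linarith
  have hnear : ∀ u ≤ W, ‖1 / (ξ - ((G * u : ℕ) : ℂ))‖ < ρ ∧ ξ - ((G * u : ℕ) : ℂ) ≠ 0 := by
    intro u hu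
    have h1 := hlow u hu
    have hB0 : (0 : ℝ) ≤ B := Nat.cast_nonneg B
    have h2 : 0 < ‖ξ - ((G * u : ℕ) : ℂ)‖ := by linarith
    refine ⟨?_, norm_pos_iff.1 h2⟩
    rw [norm_div, norm_one, div_lt_comm₀ h2 hρ]
    linarith
  refine ⟨hnear, fun hHt u hu hub P hPd hP0 g hg t => ?_⟩
  set α : Fin k → ℂ := fun j => ξ - ((G * u j : ℕ) : ℂ) with hα
  have h1 := hE W ξ hbig hHt u hu hub (YY 𝒩 fun j => Hz H (1 / α j)) (yy_irr 𝒩 _ δ₁)
    (yp_ptc_mem 𝒩 H α _) (yy_vc hinv fun j => (hnear (u j) (hub j).2).1)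
    (MvPolynomial.aeval sb P) ((deg_aeval _ sb_deg P).trans hPd) (by
      have h2 := yp_ptc H α (lw G ξ u)
      rw [h2, sb_eval]
      exact hP0) _ (yp_mem hg t)
  rw [sb_eval] at h1
  exact h1

end Pool.Agent.T2h17.TV
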