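import Pool.Agent.T2h17.HW.Ult

/-!
The tangent spaces of the rational varieties of bounded degree through a matrix and derivations of the
ultrapower.
-/

set_option autoImplicit false
set_option maxHeartbeats 400000

open Matrix Filter

namespace Pool.Agent.T2h17.TV

open Pool.Agent.Y118.UL (U mk mk_eq mk_eq_zero ev_ge qc_mk algebraMap_eq aeval_mk rep tdm)
open Pool.Agent.T2h17.HW (gm gm_apply gm_mul)

/-- the space of the matrices `Z` such that `Z C` is a tangent vector at `C` of the variety of all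
rational equations of degree at most `d0` which hold for `C` -/
def Tg {n : ℕ} (d0 : ℕ) (C : Matrix (Fin n) (Fin n) ℂ) : Submodule ℂ (Matrix (Fin n) (Fin n) ℂ) where
  carrier := {Z | ∀ f : MvPolynomial (Fin n × Fin n) ℚ, f.totalDegree ≤ d0 →
    MvPolynomial.aeval (fun a => C a.1 a.2) f = 0 →
    ∑ a, MvPolynomial.aeval (fun a => C a.1 a.2) (MvPolynomial.pderiv a f) * (Z * C) a.1 a.2 = 0}
  add_mem' := by
    intro Z Z' h h' f hf h0
    simp only [Matrix.add_mul, Matrix.add_apply, mul_add, Finset.sum_add_distrib]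
    rw [h f hf h0, h' f hf h0, add_zero]
  zero_mem' := by
    intro f _ _
    simp only [Matrix.zero_mul, Matrix.zero_apply, mul_zero, Finset.sum_const_zero]
  smul_mem' := by
    intro c Z h f hf h0
    have h1 := h f hf h0
    have h2 : ∑ a, MvPolynomial.aeval (fun a => C a.1 a.2) (MvPolynomial.pderiv a f) *
        ((c • Z) * C) a.1 a.2 =
        c * ∑ a, MvPolynomial.aeval (fun a => C a.1 a.2) (MvPolynomial.pderiv a f) * (Z * C) a.1 a.2 := by
      rw [Finset.mul_sum]
      refine Finset.sum_congr rfl fun a _ => ?_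
      rw [Matrix.smul_mul, Matrix.smul_apply, smul_eq_mul]
      ring
    rw [h2, h1, mul_zero]

/-- the chain rule for derivations -/
theorem chain_der {K L τ : Type} [Field K] [Field L] [Algebra K L] [Fintype τ]
    (D : Derivation K L L) (y : τ → L) (p : MvPolynomial τ K) :
    D (MvPolynomial.aeval y p) = ∑ i, MvPolynomial.aeval y (MvPolynomial.pderiv i p) * D (y i) := by
  classical
  induction p using MvPolynomial.induction_on with
  | C a =>
    simp only [MvPolynomial.aeval_C, MvPolynomial.pderiv_C, map_zero, zero_mul,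
      Finset.sum_const_zero]
    exact Derivation.map_algebraMap D a
  | add p q hp hq =>
    simp only [map_add, add_mul, Finset.sum_add_distrib]
    rw [hp, hq]
  | mul_X p i hp =>
    simp only [map_mul, MvPolynomial.aeval_X, map_add, add_mul,
      Finset.sum_add_distrib, Derivation.leibniz, smul_eq_mul, hp, MvPolynomial.pderiv_X]
    congr 1
    · rw [Finset.sum_eq_single i]
      · simp
      · intro j _ hj
        rw [Pi.single_eq_of_ne (Ne.symm hj)]
        simp
      · intro h
        exact absurd (Finset.mem_univ _) h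
    · rw [Finset.mul_sum]
      exact Finset.sum_congr rfl fun j _ => by ring

/-- the exponents of bounded degree -/
noncomputable def Sx (τ : Type) [Fintype τ] [DecidableEq τ] (d : ℕ) : Finset (τ →₀ ℕ) :=
  Finset.univ.image fun s : τ → Fin (d + 1) => Finsupp.equivFunOnFinite.symm fun a => (s a : ℕ)

theorem mem_Sx {τ : Type} [Fintype τ] [DecidableEq τ] {d : ℕ} {m : τ →₀ ℕ} (h : ∀ a, m a ≤ d) :
    m ∈ Sx τ d := by
  refine Finset.mem_image.2 ⟨fun a => ⟨m a, Nat.lt_succ_of_le (h a)⟩, Finset.mem_univ _, ?_⟩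
  ext a
  rfl

/-- sequences of polynomials of bounded degree -/
theorem exists_seq {τ : Type} [Fintype τ] [DecidableEq τ] (d : ℕ) (f : ℕ → MvPolynomial τ ℚ)
    (hf : ∀ e, (f e).totalDegree ≤ d) : ∃ Q : MvPolynomial τ (ℕ → ℚ), ∀ e,
      MvPolynomial.map (Pi.evalRingHom (fun _ => ℚ) e) Q = f e := by
  refine ⟨∑ m ∈ Sx τ d, MvPolynomial.monomial m fun e => (f e).coeff m, fun e => ?_⟩
  rw [map_sum]
  simp only [MvPolynomial.map_monomial]
  ext m
  rw [MvPolynomial.coeff_sum]
  simp only [MvPolynomial.coeff_monomial]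
  rw [Finset.sum_ite_eq']
  split_ifs with h
  · rfl
  · symm
    rw [← MvPolynomial.notMem_support_iff]
    intro hm
    apply h
    refine mem_Sx fun a => ?_
    have h1 : m a ≤ m.sum fun _ e => e := by
      by_cases ha : a ∈ m.support
      · exact Finset.single_le_sum (f := fun i => m i) (fun _ _ => Nat.zero_le _) ha
      · rw [Finsupp.notMem_support_iff.1 ha]
        exact Nat.zero_le _
    exact h1.trans ((MvPolynomial.le_totalDegree hm).trans (hf e))

/-- **the derivative of a sequence of matrices is a sequence of tangent vectors** -/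
theorem ev_Tg {n : ℕ} (D : Derivation (U ℚ) (U ℂ) (U ℂ)) (d0 : ℕ)
    (C Z : ℕ → Matrix (Fin n) (Fin n) ℂ) (h : (gm C).map D = gm Z * gm C) :
    ∀ᶠ d in (hyperfilter ℕ : Filter ℕ), Z d ∈ Tg d0 (C d) := by
  classical
  by_contra hcon
  rw [← Ultrafilter.eventually_not] at hcon
  have h1 : ∀ d, ∃ f : MvPolynomial (Fin n × Fin n) ℚ, f.totalDegree ≤ d0 ∧
      MvPolynomial.aeval (fun a => C d a.1 a.2) f = 0 ∧ (Z d ∉ Tg d0 (C d) →
      ∑ a, MvPolynomial.aeval (fun a => C d a.1 a.2) (MvPolynomial.pderiv a f) *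
        (Z d * C d) a.1 a.2 ≠ 0) := by
    intro d
    by_cases hd : Z d ∈ Tg d0 (C d)
    · exact ⟨0, by simp, map_zero _, fun h => absurd hd h⟩
    · have h2 : ¬ ∀ f : MvPolynomial (Fin n × Fin n) ℚ, f.totalDegree ≤ d0 →
        MvPolynomial.aeval (fun a => C d a.1 a.2) f = 0 →
        ∑ a, MvPolynomial.aeval (fun a => C d a.1 a.2) (MvPolynomial.pderiv a f) *
          (Z d * C d) a.1 a.2 = 0 := hd
      push Not at h2
      obtain ⟨f, h3, h4, h5⟩ := h2
      exact ⟨f, h3, h4, fun _ => h5⟩
  choose f hf1 hf2 hf3 using h1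
  obtain ⟨Q, hQ⟩ := exists_seq d0 f hf1
  have h2 : MvPolynomial.aeval (fun a : Fin n × Fin n => mk ℂ fun d => C d a.1 a.2)
      (MvPolynomial.map (mk ℚ) Q) = 0 := by
    rw [aeval_mk, mk_eq_zero]
    refine Eventually.of_forall fun d => ?_
    rw [hQ]
    exact hf2 d
  have h3 := chain_der D (fun a : Fin n × Fin n => mk ℂ fun d => C d a.1 a.2)
    (MvPolynomial.map (mk ℚ) Q)
  rw [h2, map_zero] at h3
  have h4 : ∀ a : Fin n × Fin n, D (mk ℂ fun d => C d a.1 a.2) =
      mk ℂ fun d => (Z d * C d) a.1 a.2 := by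
    intro a
    have h5 := congrFun (congrFun h a.1) a.2
    rw [← gm_mul, Matrix.map_apply, gm_apply, gm_apply] at h5
    exact h5
  have h5 : ∀ a : Fin n × Fin n, MvPolynomial.aeval (fun a : Fin n × Fin n => mk ℂ fun d => C d a.1 a.2)
      (MvPolynomial.pderiv a (MvPolynomial.map (mk ℚ) Q)) * mk ℂ (fun d => (Z d * C d) a.1 a.2) =
      mk ℂ (fun d => MvPolynomial.aeval (fun a => C d a.1 a.2) (MvPolynomial.pderiv a (f d)) *
        (Z d * C d) a.1 a.2) := by
    intro a
    rw [MvPolynomial.pderiv_map, aeval_mk, ← map_mul]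
    congr 1
    funext d
    rw [Pi.mul_apply, ← hQ d, MvPolynomial.pderiv_map]
  simp only [h4, h5] at h3
  rw [← map_sum] at h3
  have h6 := mk_eq_zero.1 h3.symm
  obtain ⟨d, hd1, hd2⟩ := (h6.and hcon).exists
  apply hf3 d hd2
  rw [Finset.sum_apply] at hd1
  exact hd1

end Pool.Agent.T2h17.TV
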