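import Pool.Agent.T2h17.TV.Lin
import Pool.Agent.T2h17.TV.Tg
import Pool.Agent.T2h17.HW.Core

/-!
Transversality: the elements of the Lie algebra of the monodromy group are sums of elements of a
rational Lie algebra which contains the Hodge operator, of elements which preserve the Hodge filtration
and of tangent vectors of the varieties of the rational structures.
-/

set_option autoImplicit false
set_option maxHeartbeats 800000

open Matrix Filter

namespace Pool.Agent.T2h17.TV

open Pool.Agent.Y118.UL (U mk mk_eq mk_eq_zero mk_surj ev_ge qc_mk algebraMap_eq)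
open Pool.Agent.T2h17.HW

/-- a bad example in degree `d` -/
structure Bad2 {n k : ℕ} (N : Matrix (Fin n) (Fin n) ℚ) (𝒩 : Set (Matrix (Fin n) (Fin n) ℂ))
    (lev : Fin n → ℤ) (d0 d : ℕ) : Type where
  C : Matrix (Fin n) (Fin n) ℂ
  h : Fin k → Matrix (Fin n) (Fin n) ℂ
  l : ℂ
  t : Fin k → ℂ
  Φ : Fin k → Matrix (Fin n) (Fin n) ℂ
  Φ0 : Fin k → Matrix (Fin n) (Fin n) ℂ
  W : Fin k → Matrix (Fin n) (Fin n) ℂ
  μ : Fin k → ℂ
  x : (Fin n × Fin k) × (Fin n × Fin k) → Matrix (Fin n × Fin k) (Fin n × Fin k) ℚ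
  hC : C.det ≠ 0
  hh : ∀ j, (h j).det ≠ 0
  hG : Gen 𝒩 d 1 h t
  hΦ : ∀ j, h j * En (tc N) (-(l + t j)) * C * Φ j = Φ0 j * (h j * En (tc N) (-(l + t j)) * C)
  hsh : ∀ j, Up lev 1 (Φ0 j - diagonal fun a => ((lev a : ℤ) : ℂ))
  hbr : ∀ a b, x a * x b - x b * x a ∈ Submodule.span ℚ (Set.range x)
  hmem : blockDiagonal Φ ∈ Submodule.span ℂ (Set.range fun a => tc (x a))
  hW : ∀ j, W j ∈ Submodule.span ℂ 𝒩
  hnot : ∀ Z ∈ Tg d0 C, ∀ c : ℂ, ∀ V ∈ Submodule.span ℂ (Set.range fun a => tc (x a)),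
    ∀ A : Matrix (Fin n × Fin k) (Fin n × Fin k) ℂ, Up (fun a : Fin n × Fin k => lev a.1) 0 A →
    (blockDiagonal fun j => C⁻¹ * (W j + μ j • tc N + Z + c • tc N) * C) ≠
      V + (blockDiagonal fun j => (h j * En (tc N) (-(l + t j)) * C)⁻¹) * A *
        blockDiagonal fun j => h j * En (tc N) (-(l + t j)) * C

theorem no_bad2 {n k : ℕ} {N : Matrix (Fin n) (Fin n) ℚ} (hN : N ^ n = 0)
    {𝒩 : Set (Matrix (Fin n) (Fin n) ℂ)} (hn : ∀ X ∈ 𝒩, X ^ n = 0)
    (hconj : ∀ X ∈ Submodule.span ℂ 𝒩, ∀ s, En (tc N) s * X * En (tc N) (-s) ∈ Submodule.span ℂ 𝒩)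
    (hE : ∀ s, En (tc N) s * En (tc N) (-s) = 1)
    {lev : Fin n → ℤ} {d0 : ℕ} (b : ∀ d : ℕ, Bad2 (k := k) N 𝒩 lev d0 d) : False := by
  classical
  -- the logarithms and the period matrices
  set l : ℕ → Fin k → ℂ := fun d j => (b d).l + (b d).t j with hldef
  set P : ℕ → Fin k → Matrix (Fin n) (Fin n) ℂ := fun d j =>
    (b d).h j * En (tc N) (-l d j) * (b d).C with hPdef
  have hE' : ∀ s, En (tc N) (-s) * En (tc N) s = 1 := fun s => by
    have := hE (-s)
    rwa [neg_neg] at this
  have hdetE : ∀ s, (En (tc N) s).det ≠ 0 := by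
    intro s h0
    have h1 := congrArg Matrix.det (hE s)
    rw [Matrix.det_mul, h0, zero_mul, Matrix.det_one] at h1
    exact zero_ne_one h1
  have hdetP : ∀ d j, IsUnit (P d j).det := by
    intro d j
    rw [isUnit_iff_ne_zero]
    simp only [hPdef, Matrix.det_mul]
    exact mul_ne_zero (mul_ne_zero ((b d).hh j) (hdetE _)) (b d).hC
  -- the derivation
  set W' : ℕ → Fin k → Matrix (Fin n) (Fin n) ℂ := fun d j =>
    En (tc N) (-l d j) * (b d).W j * En (tc N) (l d j) with hW'
  have hWm : ∀ d j, W' d j ∈ Submodule.span ℂ 𝒩 := by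
    intro d j
    have h1 := hconj _ ((b d).hW j) (-l d j)
    rwa [neg_neg] at h1
  obtain ⟨D, hD⟩ := exists_der (fun d => pt 1 (b d).h (b d).t)
    (fun d => vt (b d).h (W' d) fun j => -(b d).μ j)
    (fun d Q hQ hQ0 => tangent hn (b d).hG hQ hQ0 (hWm d) _)
  -- the unknown derivatives
  obtain ⟨e, he⟩ := mk_surj (D (mk ℂ fun d => (b d).l))
  have hCu : ∀ d, IsUnit (b d).C.det := fun d => isUnit_iff_ne_zero.2 (b d).hC
  have hCC : (gm fun d => (b d).C) * (gm fun d => (b d).C⁻¹) = 1 := by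
    rw [← gm_mul, ← gm_one]
    congr 1
    funext d
    exact Matrix.mul_nonsing_inv _ (hCu d)
  have hC'C : (gm fun d => (b d).C⁻¹) * (gm fun d => (b d).C) = 1 := by
    rw [← gm_mul, ← gm_one]
    congr 1
    funext d
    exact Matrix.nonsing_inv_mul _ (hCu d)
  obtain ⟨Z, hZ⟩ : ∃ Z : ℕ → Matrix (Fin n) (Fin n) ℂ,
      gm Z = (gm fun d => (b d).C).map D * gm fun d => (b d).C⁻¹ := by
    choose z hz using fun a : Fin n × Fin n =>
      mk_surj (((gm fun d => (b d).C).map D * gm fun d => (b d).C⁻¹) a.1 a.2)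
    refine ⟨fun d => Matrix.of fun i j => z (i, j) d, ?_⟩
    ext i j
    rw [gm_apply]
    exact hz (i, j)
  have hDC : (gm fun d => (b d).C).map D = gm Z * gm fun d => (b d).C := by
    rw [hZ, Matrix.mul_assoc, hC'C, Matrix.mul_one]
  have hZT := ev_Tg D d0 (fun d => (b d).C) Z hDC
  have hDl : ∀ j, D (mk ℂ fun d => -l d j) = mk ℂ fun d => (b d).μ j - e d := by
    intro j
    have h1 : D (mk ℂ fun d => (b d).t j) = mk ℂ fun d => -(b d).μ j := hD (Sum.inr (j, none))
    have h2 : mk ℂ (fun d => -l d j) = -(mk ℂ (fun d => (b d).l) + mk ℂ (fun d => (b d).t j)) := by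
      rw [← map_add, ← map_neg]
      rfl
    have h3 : mk ℂ (fun d => (b d).μ j - e d) =
        -(mk ℂ e + mk ℂ (fun d => -(b d).μ j)) := by
      rw [← map_add, ← map_neg]
      congr 1
      funext d
      show (b d).μ j - e d = -(e d + -(b d).μ j)
      ring
    rw [h2, map_neg, map_add, h1, ← he, h3]
  have hDh : ∀ j, (gm fun d => (b d).h j).map D = gm fun d => (b d).h j * W' d j := by
    intro j
    ext a c
    rw [Matrix.map_apply, gm_apply, gm_apply]
    exact hD (Sum.inr (j, some (a, c)))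
  set Y : ℕ → Fin k → Matrix (Fin n) (Fin n) ℂ := fun d j =>
    (b d).C⁻¹ * ((b d).W j + (b d).μ j • tc N + Z d + (-e d) • tc N) * (b d).C with hY
  have hDP : ∀ j, (gm fun d => P d j).map D = gm fun d => P d j * Y d j := by
    intro j
    have h1 : (gm fun d => P d j) = gm (fun d => (b d).h j) *
        En (gm fun _ => tc N) (mk ℂ fun d => -l d j) * gm (fun d => (b d).C) := by
      rw [← gm_En, ← gm_mul, ← gm_mul]
    rw [h1, map_D_mul, map_D_mul, hDC, hDh, der_En hN, hDl, ← gm_En]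
    have e1 : (gm fun _ => tc N) * gm (fun d => En (tc N) (-l d j)) =
        gm fun d => tc N * En (tc N) (-l d j) := (gm_mul _ _).symm
    rw [e1, ← gm_smul (fun d => (b d).μ j - e d), ← gm_mul, ← gm_mul, ← gm_add, ← gm_mul, ← gm_mul,
      ← gm_mul, ← gm_mul, ← gm_add]
    congr 1
    funext d
    have h3 : P d j * Y d j = (b d).h j * (En (tc N) (-l d j) *
        ((b d).W j + (b d).μ j • tc N + Z d + (-e d) • tc N) * (b d).C) := by
      have h4 : (b d).C * (b d).C⁻¹ = 1 := Matrix.mul_nonsing_inv _ (hCu d)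
      simp only [hPdef, hY]
      calc (b d).h j * En (tc N) (-l d j) * (b d).C * ((b d).C⁻¹ *
            ((b d).W j + (b d).μ j • tc N + Z d + (-e d) • tc N) * (b d).C) =
          (b d).h j * En (tc N) (-l d j) * ((b d).C * (b d).C⁻¹) *
            ((b d).W j + (b d).μ j • tc N + Z d + (-e d) • tc N) * (b d).C := by
            simp only [Matrix.mul_assoc]
        _ = _ := by
            rw [h4, Matrix.mul_one]
            simp only [Matrix.mul_assoc]
    rw [h3]
    have h4 : (b d).h j * W' d j * En (tc N) (-l d j) =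
        (b d).h j * (En (tc N) (-l d j) * (b d).W j) := by
      simp only [hW']
      rw [Matrix.mul_assoc, Matrix.mul_assoc, hE (l d j), Matrix.mul_one]
    rw [h4, Matrix.mul_smul, En_comm]
    simp only [Matrix.mul_add, Matrix.add_mul, Matrix.mul_smul, Matrix.smul_mul, Matrix.mul_assoc]
    module
  -- the matrices of all points
  set BP : Matrix (Fin n × Fin k) (Fin n × Fin k) (U ℂ) := gm fun d => blockDiagonal (P d) with hBP
  set BP' : Matrix (Fin n × Fin k) (Fin n × Fin k) (U ℂ) :=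
    gm fun d => blockDiagonal fun j => (P d j)⁻¹ with hBP'
  set BY : Matrix (Fin n × Fin k) (Fin n × Fin k) (U ℂ) := gm fun d => blockDiagonal (Y d) with hBY
  set BΦ : Matrix (Fin n × Fin k) (Fin n × Fin k) (U ℂ) := gm fun d => blockDiagonal (b d).Φ with hBΦ
  set BΦ0 : Matrix (Fin n × Fin k) (Fin n × Fin k) (U ℂ) := gm fun d => blockDiagonal (b d).Φ0
    with hBΦ0
  set X : (Fin n × Fin k) × (Fin n × Fin k) → Matrix (Fin n × Fin k) (Fin n × Fin k) (U ℂ) :=
    fun a => gm fun d => tc ((b d).x a) with hX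
  have hsum : ∀ (c : (Fin n × Fin k) × (Fin n × Fin k) → ℕ → ℂ),
      gm (fun d => ∑ a, c a d • tc ((b d).x a)) = ∑ a, mk ℂ (c a) • X a := by
    intro c
    rw [gm_sum]
    exact Finset.sum_congr rfl fun a _ => gm_smul _ _
  have hspan : ∀ (A : ℕ → Matrix (Fin n × Fin k) (Fin n × Fin k) ℂ),
      (∀ d, A d ∈ Submodule.span ℂ (Set.range fun a => tc ((b d).x a))) →
      gm A ∈ Submodule.span (U ℂ) (Set.range X) := by
    intro A hA
    choose c hc using fun d => mem_span_range (hA d)
    have h1 : A = fun d => ∑ a, c d a • tc ((b d).x a) := funext hc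
    rw [h1, hsum fun a d => c d a]
    exact sum_mem_span _ _
  have hbd1 : ∀ (A B : ℕ → Fin k → Matrix (Fin n) (Fin n) ℂ),
      gm (fun d => blockDiagonal (A d)) * gm (fun d => blockDiagonal (B d)) =
        gm fun d => blockDiagonal fun j => A d j * B d j := by
    intro A B
    rw [← gm_mul]
    congr 1
    funext d
    rw [← blockDiagonal_mul]
  have hone : (gm fun _ => blockDiagonal fun _ : Fin k => (1 : Matrix (Fin n) (Fin n) ℂ)) = 1 := by
    have h1 : (blockDiagonal fun _ : Fin k => (1 : Matrix (Fin n) (Fin n) ℂ)) = 1 :=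
      blockDiagonal_one
    rw [h1, gm_one]
  have hPP' : BP * BP' = 1 := by
    rw [hBP, hBP', hbd1, ← hone]
    congr 1
    funext d
    congr 1
    funext j
    exact Matrix.mul_nonsing_inv _ (hdetP d j)
  have hP'P : BP' * BP = 1 := by
    rw [hBP, hBP', hbd1, ← hone]
    congr 1
    funext d
    congr 1
    funext j
    exact Matrix.nonsing_inv_mul _ (hdetP d j)
  have hDBP : BP.map D = BP * BY := by
    rw [hBP, hBY, hbd1]
    ext ⟨a, j⟩ ⟨c, j'⟩
    rw [Matrix.map_apply, gm_apply, gm_apply]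
    simp only [blockDiagonal_apply]
    by_cases hj : j = j'
    · simp only [if_pos hj]
      have h1 := congrFun (congrFun (hDP j) a) c
      rw [Matrix.map_apply, gm_apply, gm_apply] at h1
      exact h1
    · simp only [if_neg hj]
      have h1 : mk ℂ (fun _ => (0 : ℂ)) = 0 := map_zero (mk ℂ)
      rw [h1, map_zero]
  have hΦ0 : BP * BΦ = BΦ0 * BP := by
    rw [hBP, hBΦ, hBΦ0, hbd1, hbd1]
    congr 1
    funext d
    congr 1
    funext j
    exact (b d).hΦ j
  have hsh : Up (fun a : Fin n × Fin k => lev a.1) 1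
      (BΦ0 - diagonal fun a => ((lev a.1 : ℤ) : U ℂ)) := by
    rintro ⟨a, j⟩ ⟨c, j'⟩ hac
    rw [Matrix.sub_apply, hBΦ0, gm_apply, Matrix.diagonal_apply]
    simp only [blockDiagonal_apply]
    by_cases hj : j = j'
    · subst hj
      simp only [if_pos]
      have h1 : ∀ d, (b d).Φ0 j a c = if a = c then ((lev a : ℤ) : ℂ) else 0 := by
        intro d
        have h2 := (b d).hsh j a c hac
        rw [Matrix.sub_apply, Matrix.diagonal_apply, sub_eq_zero] at h2
        exact h2
      simp only [h1]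
      by_cases ha : a = c
      · subst ha
        simp only [if_pos]
        have h2 : mk ℂ (fun _ => ((lev a : ℤ) : ℂ)) = ((lev a : ℤ) : U ℂ) := by
          have h3 : (fun _ : ℕ => ((lev a : ℤ) : ℂ)) = ((lev a : ℤ) : ℕ → ℂ) := by
            funext d
            simp
          rw [h3, map_intCast]
        rw [h2, sub_self]
      · have h2 : ¬ ((a, j) : Fin n × Fin k) = (c, j) := fun h => ha (Prod.ext_iff.1 h).1
        simp only [if_neg ha, if_neg h2, sub_zero]
        exact map_zero (mk ℂ)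
    · have h2 : ¬ ((a, j) : Fin n × Fin k) = (c, j') := fun h => hj (Prod.ext_iff.1 h).2
      simp only [if_neg hj, if_neg h2, sub_zero]
      exact map_zero (mk ℂ)
  have hXD : ∀ a, (X a).map D = 0 := by
    intro a
    ext p q
    rw [Matrix.map_apply, Matrix.zero_apply]
    exact der_rat D fun d => (b d).x a p q
  have hXbr : ∀ a c, X a * X c - X c * X a ∈ Submodule.span (U ℂ) (Set.range X) := by
    intro a c
    have h1 : X a * X c - X c * X a =
        gm fun d => tc ((b d).x a * (b d).x c - (b d).x c * (b d).x a) := by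
      simp only [hX]
      rw [← gm_mul, ← gm_mul, ← gm_sub]
      congr 1
      funext d
      rw [tc_sub, tc_mul, tc_mul]
    rw [h1]
    refine hspan _ fun d => ?_
    obtain ⟨e, he⟩ := mem_span_range ((b d).hbr a c)
    rw [he]
    have h2 : tc (∑ t, e t • (b d).x t) = ∑ t, ((e t : ℚ) : ℂ) • tc ((b d).x t) := by
      ext p q
      simp only [tc, Matrix.map_apply, Matrix.sum_apply, Matrix.smul_apply, smul_eq_mul]
      push_cast
      rfl
    rw [h2]
    exact sum_mem_span _ _
  have hΦm : BΦ ∈ Submodule.span (U ℂ) (Set.range X) := hspan _ fun d => (b d).hmem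
  obtain ⟨V, hV, A, hA, hfin⟩ := main_lin2 D (fun a : Fin n × Fin k => lev a.1) hPP' hP'P hDBP hΦ0 hsh
    X hXD hXbr hΦm
  obtain ⟨c, hc⟩ := mem_span_range hV
  choose c' hc' using fun a => mk_surj (c a)
  choose A' hA' using fun p : (Fin n × Fin k) × (Fin n × Fin k) => mk_surj (A p.1 p.2)
  set A'' : ℕ → Matrix (Fin n × Fin k) (Fin n × Fin k) ℂ := fun d =>
    Matrix.of fun i j => if lev j.1 < lev i.1 + 0 then 0 else A' (i, j) d with hA''
  have hAg : gm A'' = A := by
    ext i j
    rw [gm_apply]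
    simp only [hA'', Matrix.of_apply]
    by_cases hij : lev j.1 < lev i.1 + 0
    · simp only [if_pos hij]
      rw [hA i j hij]
      exact map_zero (mk ℂ)
    · simp only [if_neg hij]
      exact hA' (i, j)
  have h1 : BY = gm fun d => (∑ a, c' a d • tc ((b d).x a)) +
      (blockDiagonal fun j => (P d j)⁻¹) * A'' d * blockDiagonal (P d) := by
    rw [gm_add, hsum, gm_mul, gm_mul, hAg, hfin, hc]
    congr 1
    exact Finset.sum_congr rfl fun a _ => by rw [hc']
  rw [hBY, gm_ext] at h1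
  obtain ⟨d, hd1, hd2⟩ := (h1.and hZT).exists
  refine (b d).hnot (Z d) hd2 (-e d) _ (sum_mem_span _ _) (A'' d) ?_ hd1
  intro i j hij
  simp only [hA'', Matrix.of_apply]
  rw [if_pos hij]

end Pool.Agent.T2h17.TV
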