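import Pool.Agent.T2h17.HW.Lin

/-!
Linear algebra of the Hodge operator: a derivation of the field moves a period matrix in a direction
which is the sum of an element of a Lie algebra over the constants which contains the Hodge operator
and of an element which preserves the filtration.
-/

set_option autoImplicit false
set_option maxHeartbeats 400000

open Matrix

namespace Pool.Agent.T2h17.TV

open Pool.Agent.T2h17.HW (Up up_step map_D_mul)

variable {k L : Type} [Field k] [Field L] [Algebra k L] {ι : Type} [Fintype ι] [DecidableEq ι]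

/-- **the main lemma** -/
theorem main_lin2 [CharZero L] (D : Derivation k L L) (lev : ι → ℤ) {P P' : Matrix ι ι L}
    (hP : P * P' = 1)
    (hP' : P' * P = 1) {Y Φ Φ0 : Matrix ι ι L} (hDP : P.map D = P * Y) (hΦ0 : P * Φ = Φ0 * P)
    (hsh : Up lev 1 (Φ0 - diagonal fun a => ((lev a : ℤ) : L))) {τ : Type} (x : τ → Matrix ι ι L)
    (hx : ∀ a, (x a).map D = 0)
    (hbr : ∀ a b, x a * x b - x b * x a ∈ Submodule.span L (Set.range x))
    (hΦ : Φ ∈ Submodule.span L (Set.range x)) :
    ∃ X ∈ Submodule.span L (Set.range x), ∃ A : Matrix ι ι L, Up lev 0 A ∧ Y = X + P' * A * P := by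
  classical
  set V := Submodule.span L (Set.range x) with hV
  -- the derivatives of the elements of the Lie algebra
  have hD : ∀ Z ∈ V, Z.map D ∈ V := by
    intro Z hZ
    induction hZ using Submodule.span_induction with
    | mem Z h =>
      obtain ⟨a, rfl⟩ := h
      rw [hx a]
      exact V.zero_mem
    | zero =>
      have h1 : (0 : Matrix ι ι L).map D = 0 := by
        ext a b
        simp
      rw [h1]
      exact V.zero_mem
    | add Z W _ _ hZ hW =>
      have h1 : (Z + W).map D = Z.map D + W.map D := by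
        ext a b
        simp
      rw [h1]
      exact V.add_mem hZ hW
    | smul c Z hZ' hZ =>
      have h1 : (c • Z).map D = c • Z.map D + D c • Z := by
        ext a b
        simp only [Matrix.map_apply, Matrix.smul_apply, Matrix.add_apply, smul_eq_mul,
          Derivation.leibniz]
        ring
      rw [h1]
      exact V.add_mem (V.smul_mem _ hZ) (V.smul_mem _ hZ')
  have hbr1 : ∀ a, ∀ W ∈ V, x a * W - W * x a ∈ V := by
    intro a W hW
    induction hW using Submodule.span_induction with
    | mem W h =>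
      obtain ⟨b, rfl⟩ := h
      exact hbr a b
    | zero =>
      rw [Matrix.mul_zero, Matrix.zero_mul, sub_zero]
      exact V.zero_mem
    | add W W' _ _ h1 h2 =>
      have h3 : x a * (W + W') - (W + W') * x a = (x a * W - W * x a) + (x a * W' - W' * x a) := by
        rw [Matrix.mul_add, Matrix.add_mul]
        abel
      rw [h3]
      exact V.add_mem h1 h2
    | smul c W _ h1 =>
      rw [Matrix.mul_smul, Matrix.smul_mul, ← smul_sub]
      exact V.smul_mem _ h1
  have hbr2 : ∀ Z ∈ V, Z * Φ - Φ * Z ∈ V := by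
    intro Z hZ
    induction hZ using Submodule.span_induction with
    | mem Z h =>
      obtain ⟨a, rfl⟩ := h
      exact hbr1 a Φ hΦ
    | zero =>
      rw [Matrix.mul_zero, Matrix.zero_mul, sub_zero]
      exact V.zero_mem
    | add W W' _ _ h1 h2 =>
      have h3 : (W + W') * Φ - Φ * (W + W') = (W * Φ - Φ * W) + (W' * Φ - Φ * W') := by
        rw [Matrix.mul_add, Matrix.add_mul]
        abel
      rw [h3]
      exact V.add_mem h1 h2
    | smul c W _ h1 =>
      rw [Matrix.mul_smul, Matrix.smul_mul, ← smul_sub]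
      exact V.smul_mem _ h1
  have hΦP : Φ * P' = P' * Φ0 := by
    calc Φ * P' = P' * P * Φ * P' := by rw [hP', Matrix.one_mul]
      _ = P' * (P * Φ) * P' := by simp only [Matrix.mul_assoc]
      _ = P' * Φ0 * (P * P') := by rw [hΦ0]; simp only [Matrix.mul_assoc]
      _ = P' * Φ0 := by rw [hP, Matrix.mul_one]
  -- the equation
  have hZ0 : Up lev 1 (Φ0.map D) := by
    intro a b hab
    have h1 := hsh a b hab
    rw [Matrix.sub_apply, sub_eq_zero] at h1
    rw [Matrix.map_apply, h1, Matrix.diagonal_apply]
    split_ifs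
    · have : ((lev a : ℤ) : L) = algebraMap k L (lev a : k) := by simp
      rw [this, Derivation.map_algebraMap]
    · exact map_zero D
  have heq : Y * Φ - Φ * Y = P' * Φ0.map D * P - Φ.map D := by
    have h1 := map_D_mul D P Φ
    rw [hΦ0, map_D_mul D Φ0 P, hDP] at h1
    have h2 : P * (Y * Φ - Φ * Y) = Φ0.map D * P - P * Φ.map D := by
      rw [Matrix.mul_sub, ← Matrix.mul_assoc, ← Matrix.mul_assoc, hΦ0]
      have h3 : P * Y * Φ = Φ0.map D * P + Φ0 * (P * Y) - P * Φ.map D := by
        rw [h1]
        abel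
      rw [h3]
      simp only [Matrix.mul_assoc]
      abel
    calc Y * Φ - Φ * Y = P' * P * (Y * Φ - Φ * Y) := by rw [hP', Matrix.one_mul]
      _ = P' * (P * (Y * Φ - Φ * Y)) := by rw [Matrix.mul_assoc]
      _ = P' * Φ0.map D * P - P' * P * Φ.map D := by
          rw [h2, Matrix.mul_sub]
          simp only [Matrix.mul_assoc]
      _ = _ := by rw [hP', Matrix.one_mul]
  -- the levels are bounded
  obtain ⟨M, hM⟩ : ∃ M : ℕ, ∀ a b : ι, lev a + (-(M : ℤ)) ≤ lev b := by
    obtain ⟨B, hB⟩ : ∃ B : ℤ, ∀ a b : ι, lev a - lev b ≤ B := by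
      refine ⟨∑ p : ι × ι, |lev p.1 - lev p.2|, fun a b => ?_⟩
      refine (le_abs_self _).trans ?_
      exact Finset.single_le_sum (f := fun p : ι × ι => |lev p.1 - lev p.2|)
        (fun _ _ => abs_nonneg _) (Finset.mem_univ (a, b))
    refine ⟨B.toNat, fun a b => ?_⟩
    have h1 := hB a b
    have h2 := Int.self_le_toNat B
    linarith
  have key : ∀ s : ℕ, s ≤ M → ∃ X ∈ V, ∃ B : Matrix ι ι L, Up lev (-((M - s : ℕ) : ℤ)) B ∧
      Y = X + P' * B * P := by
    intro s
    induction s with
    | zero =>
      intro _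
      refine ⟨0, V.zero_mem, P * Y * P', ?_, ?_⟩
      · intro a b hab
        have h1 := hM a b
        rw [Nat.sub_zero] at hab
        linarith
      · rw [zero_add]
        calc Y = (P' * P) * Y * (P' * P) := by rw [hP', Matrix.one_mul, Matrix.mul_one]
          _ = _ := by simp only [Matrix.mul_assoc]
    | succ s ih =>
      intro hs
      obtain ⟨X, hX, B, hB, h1⟩ := ih (by omega)
      obtain ⟨q, hq⟩ : ∃ q : ℕ, M - s = q + 1 := ⟨M - s - 1, by omega⟩
      have hq' : M - (s + 1) = q := by omega
      rw [hq] at hB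
      rw [hq']
      have hq0 : ((q + 1 : ℕ) : L) ≠ 0 := by exact_mod_cast Nat.succ_ne_zero q
      set B' := B * Φ0 - Φ0 * B - (((-((q + 1 : ℕ) : ℤ) : ℤ)) : L) • B with hB'
      have hB'u : Up lev (-(q : ℤ)) B' := by
        have h2 := up_step hB hsh
        have h3 : -((q + 1 : ℕ) : ℤ) + 1 = -(q : ℤ) := by
          push_cast
          ring
        rw [h3] at h2
        exact h2
      refine ⟨X + ((q + 1 : ℕ) : L)⁻¹ • (Φ.map D + (X * Φ - Φ * X)), ?_,
        ((q + 1 : ℕ) : L)⁻¹ • (B' - Φ0.map D), ?_, ?_⟩
      · exact V.add_mem hX (V.smul_mem _ (V.add_mem (hD Φ hΦ) (hbr2 X hX)))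
      · intro a b hab
        rw [Matrix.smul_apply, Matrix.sub_apply, hB'u a b hab, hZ0 a b (by linarith), sub_zero,
          smul_zero]
      · have h3 : P' * (B * Φ0 - Φ0 * B) * P = P' * B * P * Φ - Φ * (P' * B * P) := by
          calc P' * (B * Φ0 - Φ0 * B) * P = P' * B * (Φ0 * P) - (P' * Φ0) * B * P := by
                rw [Matrix.mul_sub, Matrix.sub_mul]
                simp only [Matrix.mul_assoc]
            _ = P' * B * (P * Φ) - (Φ * P') * B * P := by rw [hΦ0, hΦP]
            _ = _ := by simp only [Matrix.mul_assoc]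
        have h4 : B * Φ0 - Φ0 * B = B' - ((q + 1 : ℕ) : L) • B := by
          rw [hB']
          push_cast
          module
        have h5 : Y * Φ - Φ * Y = (X * Φ - Φ * X) + P' * (B * Φ0 - Φ0 * B) * P := by
          rw [h3, h1, Matrix.add_mul, Matrix.mul_add]
          abel
        rw [heq, h4] at h5
        have h6 : ((q + 1 : ℕ) : L) • (P' * B * P) =
            Φ.map D + (X * Φ - Φ * X) + P' * (B' - Φ0.map D) * P := by
          have h7 : P' * (B' - ((q + 1 : ℕ) : L) • B) * P =
              P' * B' * P - ((q + 1 : ℕ) : L) • (P' * B * P) := by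
            rw [Matrix.mul_sub, Matrix.sub_mul, Matrix.mul_smul, Matrix.smul_mul]
          have h8 : P' * (B' - Φ0.map D) * P = P' * B' * P - P' * Φ0.map D * P := by
            rw [Matrix.mul_sub, Matrix.sub_mul]
          rw [h7] at h5
          rw [h8]
          have h9 : ((q + 1 : ℕ) : L) • (P' * B * P) = (X * Φ - Φ * X) + P' * B' * P -
              (P' * Φ0.map D * P - Φ.map D) := by
            rw [h5]
            abel
          rw [h9]
          abel
        have h7 : P' * B * P = ((q + 1 : ℕ) : L)⁻¹ • (Φ.map D + (X * Φ - Φ * X)) +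
            P' * (((q + 1 : ℕ) : L)⁻¹ • (B' - Φ0.map D)) * P := by
          rw [Matrix.mul_smul, Matrix.smul_mul, ← smul_add, ← h6, smul_smul, inv_mul_cancel₀ hq0,
            one_smul]
        rw [h1, h7, add_assoc]
  obtain ⟨X, hX, B, hB, h1⟩ := key M le_rfl
  refine ⟨X, hX, B, ?_, h1⟩
  rw [Nat.sub_self] at hB
  simpa using hB

end Pool.Agent.T2h17.TV
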