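import Pool.Agent.T2h17.TV.Tg
import Pool.Agent.Y916.Om.Bas

/-!
The dimension of the tangent space of all rational relations of a matrix is at most the transcendence
degree of the field which is generated by its entries.
-/

set_option autoImplicit false
set_option maxHeartbeats 400000

open Matrix

namespace Pool.Agent.T2h17.TV

section dv
variable {τ : Type} [Fintype τ]

/-- the derivative in the direction `v` at the point `u` -/
noncomputable def Dv (u v : τ → ℂ) (f : MvPolynomial τ ℚ) : ℂ :=
  ∑ a, MvPolynomial.aeval u (MvPolynomial.pderiv a f) * v a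

variable (u v : τ → ℂ)

theorem Dv_add (f g : MvPolynomial τ ℚ) : Dv u v (f + g) = Dv u v f + Dv u v g := by
  unfold Dv
  simp only [map_add, add_mul, Finset.sum_add_distrib]

theorem Dv_zero : Dv u v 0 = 0 := by
  unfold Dv
  simp

theorem Dv_sum {ι : Type} (s : Finset ι) (f : ι → MvPolynomial τ ℚ) :
    Dv u v (∑ i ∈ s, f i) = ∑ i ∈ s, Dv u v (f i) := by
  classical
  induction s using Finset.induction_on with
  | empty => rw [Finset.sum_empty, Finset.sum_empty, Dv_zero]
  | insert a s ha ih => rw [Finset.sum_insert ha, Finset.sum_insert ha, Dv_add, ih]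

theorem Dv_mul (f g : MvPolynomial τ ℚ) : Dv u v (f * g) =
    MvPolynomial.aeval u f * Dv u v g + MvPolynomial.aeval u g * Dv u v f := by
  unfold Dv
  rw [Finset.mul_sum, Finset.mul_sum, ← Finset.sum_add_distrib]
  refine Finset.sum_congr rfl fun a _ => ?_
  rw [MvPolynomial.pderiv_mul, map_add, map_mul, map_mul]
  ring

theorem Dv_C (c : ℚ) : Dv u v (MvPolynomial.C c) = 0 := by
  unfold Dv
  simp

theorem Dv_X [DecidableEq τ] (a : τ) : Dv u v (MvPolynomial.X a) = v a := by
  unfold Dv
  rw [Finset.sum_eq_single a]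
  · rw [MvPolynomial.pderiv_X, Pi.single_eq_same, map_one, one_mul]
  · intro b _ hb
    rw [MvPolynomial.pderiv_X, Pi.single_eq_of_ne (Ne.symm hb), map_zero, zero_mul]
  · intro h
    exact absurd (Finset.mem_univ _) h

theorem Dv_pow (f : MvPolynomial τ ℚ) (m : ℕ) : Dv u v (f ^ m) =
    (m : ℂ) * MvPolynomial.aeval u f ^ (m - 1) * Dv u v f := by
  induction m with
  | zero =>
    have h1 : (1 : MvPolynomial τ ℚ) = MvPolynomial.C 1 := MvPolynomial.C_1.symm
    rw [pow_zero, h1, Dv_C]
    simp
  | succ m ih =>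
    rw [pow_succ, Dv_mul, ih, map_pow, Nat.add_sub_cancel]
    rcases m with _ | m
    · simp
    · rw [Nat.add_sub_cancel]
      push_cast
      ring

/-- the derivative of a polynomial in the coordinates along which `v` vanishes -/
theorem Dv_rename [DecidableEq τ] {T : Finset τ} (hT : ∀ t ∈ T, v t = 0) (P : MvPolynomial T ℚ) :
    Dv u v (MvPolynomial.rename (Subtype.val : T → τ) P) = 0 := by
  induction P using MvPolynomial.induction_on with
  | C a => rw [MvPolynomial.rename_C, Dv_C]
  | add p q hp hq => rw [map_add, Dv_add, hp, hq, add_zero]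
  | mul_X p i hp => rw [map_mul, Dv_mul, hp, MvPolynomial.rename_X, Dv_X, hT _ i.2, mul_zero, mul_zero,
      add_zero]

/-- **vectors which satisfy all tangent equations and vanish on a transcendence basis are zero** -/
theorem tan_zero [DecidableEq τ] {T : Finset τ}
    (hT : ∀ j, IsAlgebraic (Algebra.adjoin ℚ (u '' (T : Set τ))) (u j))
    (hv : ∀ f, MvPolynomial.aeval u f = 0 → Dv u v f = 0) (hv0 : ∀ t ∈ T, v t = 0) : v = 0 := by
  classical
  funext a
  rw [Pi.zero_apply]
  set R := Algebra.adjoin ℚ (u '' (T : Set τ)) with hR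
  -- a polynomial of minimal degree
  obtain ⟨p0, hp0, hp0'⟩ := hT a
  have hex : ∃ m : ℕ, ∃ p : Polynomial R, p ≠ 0 ∧ Polynomial.aeval (u a) p = 0 ∧ p.natDegree = m :=
    ⟨_, p0, hp0, hp0', rfl⟩
  obtain ⟨p, hp, hpa, hpd⟩ := Nat.find_spec hex
  have hmin : ∀ q : Polynomial R, q ≠ 0 → Polynomial.aeval (u a) q = 0 → p.natDegree ≤ q.natDegree := by
    intro q hq hqa
    rw [hpd]
    exact Nat.find_min' hex ⟨q, hq, hqa, rfl⟩
  have hdeg : 0 < p.natDegree := by
    by_contra h0
    have h1 : p.natDegree = 0 := by omega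
    rw [Polynomial.eq_C_of_natDegree_eq_zero h1, Polynomial.aeval_C] at hpa
    have h2 : p.coeff 0 = 0 := Subtype.ext hpa
    apply hp
    rw [Polynomial.eq_C_of_natDegree_eq_zero h1, h2, Polynomial.C_0]
  have hder : Polynomial.aeval (u a) (Polynomial.derivative p) ≠ 0 := by
    intro h0
    have h1 : Polynomial.derivative p ≠ 0 := by
      intro h2
      have h3 := Polynomial.derivative_eq_zero.1 h2
      omega
    have h2 := hmin _ h1 h0
    have h3 := Polynomial.natDegree_derivative_lt (by omega : p.natDegree ≠ 0)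
    omega
  -- lifts of the coefficients
  have hlift : ∀ i, ∃ P : MvPolynomial T ℚ,
      MvPolynomial.aeval u (MvPolynomial.rename (Subtype.val : T → τ) P) = (p.coeff i : ℂ) := by
    intro i
    have h2 : u '' (T : Set τ) = Set.range (fun t : T => u t) := by
      ext z
      constructor
      · rintro ⟨t, ht, rfl⟩
        exact ⟨⟨t, ht⟩, rfl⟩
      · rintro ⟨t, rfl⟩
        exact ⟨t, t.2, rfl⟩
    have h1 : (p.coeff i : ℂ) ∈ Algebra.adjoin ℚ (Set.range fun t : T => u t) := by
      rw [← h2]
      exact (p.coeff i).2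
    rw [Algebra.adjoin_range_eq_range_aeval] at h1
    obtain ⟨P, hP⟩ := h1
    refine ⟨P, ?_⟩
    rw [MvPolynomial.aeval_rename]
    exact hP
  choose P hP using hlift
  set f : MvPolynomial τ ℚ := ∑ i ∈ Finset.range (p.natDegree + 1),
    MvPolynomial.rename (Subtype.val : T → τ) (P i) * MvPolynomial.X a ^ i with hf
  have hf0 : MvPolynomial.aeval u f = 0 := by
    rw [hf, map_sum]
    simp only [map_mul, map_pow, MvPolynomial.aeval_X, hP]
    rw [← hpa, Polynomial.aeval_eq_sum_range]
    rfl
  have h1 := hv f hf0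
  rw [hf, Dv_sum] at h1
  have h2 : ∀ i ∈ Finset.range (p.natDegree + 1),
      Dv u v (MvPolynomial.rename (Subtype.val : T → τ) (P i) * MvPolynomial.X a ^ i) =
      ((p.coeff i : ℂ) * ((i : ℂ) * u a ^ (i - 1))) * v a := by
    intro i _
    rw [Dv_mul, Dv_rename u v hv0, mul_zero, add_zero, hP, Dv_pow, MvPolynomial.aeval_X, Dv_X]
    ring
  rw [Finset.sum_congr rfl h2, ← Finset.sum_mul] at h1
  have h3 : ∑ i ∈ Finset.range (p.natDegree + 1), (p.coeff i : ℂ) * ((i : ℂ) * u a ^ (i - 1)) =
      Polynomial.aeval (u a) (Polynomial.derivative p) := by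
    have h4 : Polynomial.derivative p = ∑ i ∈ Finset.range (p.natDegree + 1),
        Polynomial.C (p.coeff i * (i : R)) * Polynomial.X ^ (i - 1) := by
      conv_lhs => rw [p.as_sum_range_C_mul_X_pow]
      rw [Polynomial.derivative_sum]
      exact Finset.sum_congr rfl fun i _ => Polynomial.derivative_C_mul_X_pow _ _
    rw [h4, map_sum]
    refine Finset.sum_congr rfl fun i _ => ?_
    rw [map_mul, Polynomial.aeval_C, map_pow, Polynomial.aeval_X, map_mul, map_natCast, ← mul_assoc]
    rfl
  rw [h3] at h1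
  exact (mul_eq_zero.1 h1).resolve_left hder

end dv

end Pool.Agent.T2h17.TV
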