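import Pool.Agent.Y916.Af.Gs3

/-!
Windows without exceptions: the values of the functions and the logarithms relative to the centre.
-/

set_option autoImplicit false
set_option linter.unusedVariables false
set_option maxHeartbeats 800000

open PowerSeries Module

namespace Pool.Agent.T2h17.TV

open Pool.Agent.Y916 Pool.Agent.Y916.Af Pool.Agent.Y113 Pool.Agent.Y916.Al Pool.Agent.Y916.AW
  Pool.Agent.Y118.UL

variable {r : ℕ}

/-- the logarithms relative to the centre of the window -/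
noncomputable def lw {k : ℕ} (G : ℕ) (ξ : ℂ) (u : Fin k → ℕ) : Fin k → ℂ := fun j =>
  Complex.log (1 - ((G * u j : ℕ) : ℂ) / ξ)

/-- windows without exceptions -/
theorem winL {h : Fin r → ℚ⟦X⟧} (hnr : NRh h) :
    ∃ G0 : ℕ, 1 ≤ G0 ∧ ∀ G : ℕ, G0 ≤ G → ∀ k m δ A : ℕ, ∃ δ₁ E : ℕ, ∀ (H : ℕ) (ξ : ℂ),
      ((H : ℝ) + 2) ^ E ≤ ‖ξ‖ → Ht m A ξ →
      ∀ u : Fin k → ℕ, Function.Injective u → (∀ j, 1 ≤ u j ∧ u j ≤ H) →
      ∀ Y : Set (Fin k × Option (Fin r) → ℂ), IrrD δ₁ Y →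
      ptc h (fun j => ξ - ((G * u j : ℕ) : ℂ)) (lw G ξ u) ∈ Y →
      (∀ y ∈ Y, ∀ j, (fun i => y (j, some i)) ∈ Vc h (1 / (ξ - ((G * u j : ℕ) : ℂ)))) →
      ∀ P : MvPolynomial (Fin k × Option (Fin r)) ℚ, P.totalDegree ≤ δ →
      MvPolynomial.aeval (ptc h (fun j => ξ - ((G * u j : ℕ) : ℂ)) (lw G ξ u)) P = 0 →
      ∀ y ∈ Y, MvPolynomial.aeval y P = 0 := by
  classical
  obtain ⟨I, hI1, hI2⟩ := exists_free h
  have hI : Free h I := ⟨hI1, hI2⟩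
  obtain ⟨G0, hG01, hval⟩ := hnr
  refine ⟨G0, hG01, fun G hG k m δ A => ?_⟩
  have hG1 : 1 ≤ G := hG01.trans hG
  have hval := hval G hG I hI
  obtain ⟨δ', c, hc, hbr⟩ := t_br2 r h I hI k m 1 δ 0
  obtain ⟨B, hB1, hB⟩ := large_ne hc
  obtain ⟨E₁, hE₁⟩ := windowN (va G h I) (inpA_va hG1 hval) (Fin.elim0 : Fin 0 → ℂ) m k 1 δ' 0
    (2 * (2 * A + 3))
  refine ⟨δ', E₁ + 2 * G + B + 3, ?_⟩
  intro H ξ hξ hHt
  have hH2 : (2 : ℝ) ≤ (H : ℝ) + 2 := by linarith [(Nat.cast_nonneg H : (0 : ℝ) ≤ H)]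
  have hH1 : (1 : ℝ) ≤ (H : ℝ) + 2 := by linarith
  have hGR : (1 : ℝ) ≤ G := by exact_mod_cast hG1
  have h2n : ∀ n : ℕ, (n : ℝ) ≤ ((H : ℝ) + 2) ^ n := fun n => by
    refine le_trans ?_ (pow_le_pow_left₀ (by norm_num) hH2 n)
    exact_mod_cast (Nat.lt_two_pow_self (n := n)).le
  have hGB : (G : ℝ) * (H + 2) + B ≤ ‖ξ‖ := by
    refine le_trans ?_ ((pow_le_pow_right₀ hH1 (by omega : G + 1 + B + 1 ≤ E₁ + 2 * G + B + 3)).trans hξ)
    have h1 := h2n G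
    have h2 := h2n B
    have h3 : (1 : ℝ) ≤ ((H : ℝ) + 2) ^ (G + 1) := one_le_pow₀ hH1
    have h4 : (1 : ℝ) ≤ ((H : ℝ) + 2) ^ B := one_le_pow₀ hH1
    have h5 : (G : ℝ) * (H + 2) ≤ ((H : ℝ) + 2) ^ (G + 1) := by
      rw [pow_succ]
      exact mul_le_mul_of_nonneg_right h1 (by linarith)
    have h6 : (B : ℝ) ≤ ((H : ℝ) + 2) ^ B := h2
    calc (G : ℝ) * (H + 2) + B ≤ ((H : ℝ) + 2) ^ (G + 1) + ((H : ℝ) + 2) ^ B := add_le_add h5 h6
      _ ≤ ((H : ℝ) + 2) ^ (G + 1) * ((H : ℝ) + 2) ^ B * 2 := by nlinarith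
      _ ≤ ((H : ℝ) + 2) ^ (G + 1) * ((H : ℝ) + 2) ^ B * ((H : ℝ) + 2) :=
          mul_le_mul_of_nonneg_left hH2 (by positivity)
      _ = _ := by rw [← pow_add, ← pow_succ]
  have hG2 : (G : ℝ) * G ≤ ‖ξ‖ := by
    refine le_trans ?_ ((pow_le_pow_right₀ hH1 (by omega : G + G ≤ E₁ + 2 * G + B + 3)).trans hξ)
    rw [pow_add]
    exact mul_le_mul (h2n G) (h2n G) (by linarith) (by positivity)
  have hGE : (G : ℝ) * ((H : ℝ) + 2) ^ E₁ ≤ ‖ξ‖ := by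
    refine le_trans ?_ ((pow_le_pow_right₀ hH1 (by omega : G + E₁ ≤ E₁ + 2 * G + B + 3)).trans hξ)
    rw [pow_add]
    exact mul_le_mul_of_nonneg_right (h2n G) (by positivity)
  obtain ⟨p₀, hp0, hpd, hpY, hp⟩ := hHt
  obtain ⟨K₁, ξ₁, h1, h2, h3, h4⟩ := pt_root hp0 hpd hpY hp
  have hξ2 : (2 : ℝ) ≤ ‖ξ‖ := by nlinarith [(Nat.cast_nonneg B : (0 : ℝ) ≤ B), (Nat.cast_nonneg H : (0 : ℝ) ≤ H)]
  have hn : ‖((-ξ₁ / G : K₁) : ℂ)‖ = ‖ξ‖ / G := by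
    push_cast
    rw [h3, norm_div, norm_neg, Complex.norm_natCast]
  obtain ⟨S, hS, hwin⟩ := hE₁ H K₁ (-ξ₁ / G) (G * (‖ξ‖ ^ A * (‖ξ‖ ^ A + 2))) h1 h2 (pt_div h4 hG1) (by
    rw [hn, le_div_iff₀ (by linarith), mul_comm]
    exact hGE) (by
    rw [hn]
    have h5 : ‖ξ‖ ≤ (‖ξ‖ / G) ^ 2 := by
      rw [div_pow, le_div_iff₀ (by positivity)]
      nlinarith
    have h6 : (G : ℝ) ≤ ‖ξ‖ := by nlinarith
    have h7 : (1 : ℝ) ≤ ‖ξ‖ ^ A := one_le_pow₀ (by linarith)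
    have h8 : ‖ξ‖ ^ A + 2 ≤ ‖ξ‖ ^ A * ‖ξ‖ ^ 2 := by
      have h9 : (4 : ℝ) ≤ ‖ξ‖ ^ 2 := by nlinarith
      nlinarith
    calc (G : ℝ) * (‖ξ‖ ^ A * (‖ξ‖ ^ A + 2)) ≤ ‖ξ‖ * (‖ξ‖ ^ A * (‖ξ‖ ^ A * ‖ξ‖ ^ 2)) :=
          mul_le_mul h6 (mul_le_mul_of_nonneg_left h8 (by positivity)) (by positivity) (by positivity)
      _ = ‖ξ‖ ^ (2 * A + 3) := by ring
      _ ≤ ((‖ξ‖ / G) ^ 2) ^ (2 * A + 3) := pow_le_pow_left₀ (by positivity) h5 _
      _ = _ := by rw [← pow_mul]) (Fin.elim0 : Fin 0 → ℂ)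
  have hcard : S.card = 0 := by
    have h5 : (S.card : Cardinal) ≤ 0 := by
      refine hS.trans (le_of_eq ?_)
      rw [Nat.cast_zero, zero_add]
      have h6 : IntermediateField.adjoin ℚ (Set.range (Fin.elim0 : Fin 0 → ℂ)) = ⊥ := by
        rw [IntermediateField.adjoin_eq_bot_iff]
        rintro _ ⟨i, -⟩
        exact i.elim0
      rw [h6]
      exact trdeg_eq_zero
    have h6 : (S.card : Cardinal) = 0 := le_antisymm h5 bot_le
    exact_mod_cast h6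
  have hS0 : S = ∅ := Finset.card_eq_zero.1 hcard
  subst hS0
  intro u hu hub Y hY hmem hfib P hPd hP0 y hy
  by_contra hPy
  set α : Fin k → ℂ := fun j => ξ - ((G * u j : ℕ) : ℂ) with hα
  have hαB : ∀ j, (B : ℝ) < ‖α j‖ := by
    intro j
    have h5 := norm_sub_norm_le ξ ((G * u j : ℕ) : ℂ)
    rw [Complex.norm_natCast] at h5
    have h6 : ((G * u j : ℕ) : ℝ) ≤ G * H := by
      push_cast
      exact mul_le_mul_of_nonneg_left (by exact_mod_cast (hub j).2) (by linarith)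
    show (B : ℝ) < ‖ξ - ((G * u j : ℕ) : ℂ)‖
    nlinarith
  -- the polynomial over the trivial subfield
  set w' : Fin 0 → ℂ := Fin.elim0 with hw'
  set P' : MvPolynomial (Fin 0 ⊕ Fin k × Option (Fin r)) (⊥ : IntermediateField ℚ ℂ) :=
    MvPolynomial.rename Sum.inr (MvPolynomial.map (algebraMap ℚ (⊥ : IntermediateField ℚ ℂ)) P) with hP'
  have hev : ∀ z : Fin k × Option (Fin r) → ℂ, MvPolynomial.aeval (Sum.elim w' z) P' =
      MvPolynomial.aeval z P := by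
    intro z
    rw [hP', MvPolynomial.aeval_rename, MvPolynomial.aeval_map_algebraMap]
    rfl
  obtain ⟨Q, hQd, hQ, hQ0⟩ := hbr (fun j => 1 / α j) (ptc h α (lw G ξ u)) Y ⊥ w' P' (fun j => by
    refine ⟨K₁, h1, h2, ?_⟩
    have h5 : 1 / α j = ((1 / (ξ₁ - ((G * u j : ℕ) : K₁)) : K₁) : ℂ) := by
      push_cast
      rw [h3, hα]
      push_cast
      rfl
    rw [h5]
    exact SetLike.coe_mem _) (fun j => hB _ (hαB j)) hY hmem hfib inferInstance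
    (by rw [IntermediateField.finrank_bot])
    ((MvPolynomial.totalDegree_rename_le _ _).trans ((tdm _ _).trans hPd)) (by rw [hev, hP0])
    ⟨y, hy, by rwa [hev]⟩
  apply hQ0
  -- the window theorem for the free coordinates
  set ρ' : Fin 0 ⊕ Fin k × Option I → (Fin 0 ⊕ Fin 0) ⊕ Fin k × Option I :=
    Sum.map (fun i => i.elim0) id with hρ'
  have h9 := hwin u hu (fun j => ⟨(hub j).1, (hub j).2, by simp⟩) ⊥ inferInstance
    (by rw [IntermediateField.finrank_bot])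
    (MvPolynomial.rename ρ' (MvPolynomial.map (algebraMap ℚ (⊥ : IntermediateField ℚ ℂ)) Q))
    ((MvPolynomial.totalDegree_rename_le _ _).trans ((tdm _ _).trans hQd)) ?_
  · rw [MvPolynomial.aeval_rename] at h9
    refine Eq.trans ?_ h9
    rw [MvPolynomial.aeval_def, MvPolynomial.aeval_def, MvPolynomial.eval₂_map]
    congr 1
    funext x
    rcases x with i | x
    · exact i.elim0
    · rfl
  · rw [MvPolynomial.aeval_rename]
    refine Eq.trans ?_ hQ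
    rw [MvPolynomial.aeval_def, MvPolynomial.aeval_def, MvPolynomial.eval₂_map]
    congr 1
    funext x
    have hG0 : (G : ℂ) ≠ 0 := by exact_mod_cast (by omega : G ≠ 0)
    have h11 : -(G : ℂ) * ((-ξ₁ / G : K₁) : ℂ) = ξ := by
      push_cast
      rw [h3]
      field_simp
    rcases x with i | ⟨i, s⟩
    · exact i.elim0
    · rcases s with _ | s
      · show Complex.log (1 - ((G * u i : ℕ) : ℂ) / (-(G : ℂ) * ((-ξ₁ / G : K₁) : ℂ))) = lw G ξ u i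
        rw [h11]
        rfl
      · show evc (1 / (-(G : ℂ) * ((-ξ₁ / G : K₁) : ℂ) - ((G * u i : ℕ) : ℂ))) (h s) =
          evc (1 / α i) (h s)
        rw [h11]

end Pool.Agent.T2h17.TV
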